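import Pool.Agent.Helper41.F2.Link
import Pool.Agent.Helper82.TK.HCases

/-!
# Degree-2 vertices, the dense case (F2c): the society

`HT G`: no consistent triangle of links contains a vertex of degree two.
`Sq`: the dense situation, all side conditions.
The society: terminals `p, h, n1, n2`, inner vertices `n3` and the vertices of `Y`, of degree at
least three, different from `p`. The vertices of degree two are suppressed (even edges).
-/

set_option autoImplicit false

namespace Pool.Agent.Helper94.F2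

open SimpleGraph Pool.Agent.Helper57.TOK Pool.Agent.Helper57.TD Pool.Agent.Helper57.TOP
  Pool.Agent.Helper82.TK Pool.Agent.Helper41.F2

variable {V : Type*}

/-- No consistent triangle contains a vertex `m` of degree two. -/
def HT (G : SimpleGraph V) : Prop :=
  ∀ m x y z, Hand G m x y → z ≠ m → z ≠ x → z ≠ y →
    ¬ (G.Adj x z ∧ G.Adj y z) ∧ ¬ (∃ m1 m2, Hand G m1 x z ∧ Hand G m2 y z)

/-- The dense situation. -/
structure Sq (G : SimpleGraph V) (U Y : Set V) (κ : V → ZMod 2) (h p q n1 n2 n3 : V) : Prop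
    extends Pool.Agent.Helper41.F2.F2 G U Y κ h p q n1 n2 n3 where
  ht : HT G
  dense : beta κ {n1, n2, n3} + 3 ≤ fden G Y
  two1 : 2 ≤ (G.neighborSet n1 ∩ Y).ncard
  two2 : 2 ≤ (G.neighborSet n2 ∩ Y).ncard
  two3 : 2 ≤ (G.neighborSet n3 ∩ Y).ncard
  r1 : 3 ≤ (G.neighborSet n1).ncard
  r2 : 3 ≤ (G.neighborSet n2).ncard
  r3 : 3 ≤ (G.neighborSet n3).ncard
  nolink : ∀ m ∈ Y, (G.neighborSet m).ncard = 2 → ¬ (G.neighborSet m ⊆ {n1, n2, n3})

section

variable {G : SimpleGraph V} {U Y : Set V} {κ : V → ZMod 2} {h p q n1 n2 n3 : V}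

lemma Sq.symm_pq (F : Sq G U Y κ h p q n1 n2 n3) : Sq G U Y κ h q p n1 n2 n3 :=
  { F.toF2.symm_pq with
    ht := F.ht, dense := F.dense, two1 := F.two1, two2 := F.two2, two3 := F.two3, r1 := F.r1,
    r2 := F.r2, r3 := F.r3, nolink := F.nolink }

lemma Sq.swap12 (F : Sq G U Y κ h p q n1 n2 n3) : Sq G U Y κ h p q n2 n1 n3 :=
  { F.toF2.swap12 with
    ht := F.ht
    dense := by
      have e : ({n2, n1, n3} : Set V) = {n1, n2, n3} := Set.insert_comm _ _ _
      rw [e]; exact F.dense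
    two1 := F.two2, two2 := F.two1, two3 := F.two3, r1 := F.r2, r2 := F.r1, r3 := F.r3
    nolink := by
      intro m hm hd hs
      exact F.nolink m hm hd (by rw [Set.insert_comm]; exact hs) }

lemma Sq.swap23 (F : Sq G U Y κ h p q n1 n2 n3) : Sq G U Y κ h p q n1 n3 n2 :=
  { F.toF2.swap23 with
    ht := F.ht
    dense := by
      have e : ({n1, n3, n2} : Set V) = {n1, n2, n3} := by rw [Set.pair_comm n3 n2]
      rw [e]; exact F.dense
    two1 := F.two1, two2 := F.two3, two3 := F.two2, r1 := F.r1, r2 := F.r3, r3 := F.r2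
    nolink := by
      intro m hm hd hs
      exact F.nolink m hm hd (by rw [Set.pair_comm n2 n3]; exact hs) }

lemma Sq.swap13 (F : Sq G U Y κ h p q n1 n2 n3) : Sq G U Y κ h p q n3 n2 n1 :=
  F.swap12.swap23.swap12

end

/-- The inner vertices of the society. -/
def SS (G : SimpleGraph V) (Y : Set V) (p n3 : V) : Set V :=
  insert n3 {v | v ∈ Y ∧ v ≠ p ∧ 3 ≤ (G.neighborSet v).ncard}

/-- The terminals. -/
def TT (h p n1 n2 : V) : Set V := {p, h, n1, n2}

/-- The society: links of `G` (edges and vertices of degree two, not `h`) with an end in `Y`,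
inside `S ∪ T` and not inside `T`. -/
def ZG (G : SimpleGraph V) (Y : Set V) (h p n1 n2 n3 : V) : SimpleGraph V where
  Adj u v := (G.Adj u v ∨ ∃ m, m ≠ h ∧ Hand G m u v) ∧ (u ∈ Y ∨ v ∈ Y) ∧
    (u ∈ SS G Y p n3 ∨ v ∈ SS G Y p n3) ∧ u ∈ SS G Y p n3 ∪ TT h p n1 n2 ∧
    v ∈ SS G Y p n3 ∪ TT h p n1 n2
  symm := ⟨by
    rintro u v ⟨h1, h2, h3, h4, h5⟩
    refine ⟨?_, h2.symm, h3.symm, h5, h4⟩
    rcases h1 with h1 | ⟨m, hm, h1⟩
    · exact Or.inl h1.symm
    · exact Or.inr ⟨m, hm, h1.symm⟩⟩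
  loopless := ⟨by
    rintro u ⟨h1 | ⟨m, -, h1⟩, -⟩
    · exact h1.ne rfl
    · exact h1.ne rfl⟩

open Classical in
/-- The colouring of the society: `h` is a pendant vertex at `q`. -/
noncomputable def kh (κ : V → ZMod 2) (h p : V) : V → ZMod 2 :=
  fun x => if x = h then κ p else κ x

/-- Add the vertices of degree two (except `h`) at `A`. -/
def cl (G : SimpleGraph V) (h : V) (A : Set V) : Set V :=
  A ∪ {m | m ≠ h ∧ (G.neighborSet m).ncard = 2 ∧ ∃ a ∈ A, G.Adj a m}

open Classical in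
/-- Indicator of an edge. -/
noncomputable def ad (G : SimpleGraph V) (u v : V) : ℤ := if G.Adj u v then 1 else 0

lemma kh_h (κ : V → ZMod 2) (h p : V) : kh κ h p h = κ p := if_pos rfl

lemma kh_ne (κ : V → ZMod 2) (h p : V) {x : V} (hx : x ≠ h) : kh κ h p x = κ x :=
  if_neg hx

section

variable {G : SimpleGraph V} {U Y : Set V} {κ : V → ZMod 2} {h p q n1 n2 n3 : V}

lemma Sq.hand (F : Sq G U Y κ h p q n1 n2 n3) : Hand G h p q where
  ne := fun hh => F.pq (hh ▸ rfl)
  nb := by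
    ext v
    exact F.adj_h v

lemma Sq.hU (F : Sq G U Y κ h p q n1 n2 n3) : h ∈ U := F.hM.ex.edge_mem h p F.hand.hp

lemma Sq.preal [Finite V] (F : Sq G U Y κ h p q n1 n2 n3) : 3 ≤ (G.neighborSet p).ncard :=
  gmin_hand_real F.hM F.hU F.hand

lemma Sq.qreal [Finite V] (F : Sq G U Y κ h p q n1 n2 n3) : 3 ≤ (G.neighborSet q).ncard :=
  gmin_hand_real F.hM F.hU F.hand.symm

lemma Sq.hdeg [Finite V] (F : Sq G U Y κ h p q n1 n2 n3) : (G.neighborSet h).ncard = 2 := by
  rw [F.hand.nb, Set.ncard_pair F.hand.ne]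

/-- A vertex of degree two at `Y`, different from `h`, is in `Y`. -/
lemma Sq.handY [Finite V] (F : Sq G U Y κ h p q n1 n2 n3) {m a : V} (ha : a ∈ Y)
    (hm : G.Adj a m) (hmh : m ≠ h) (hd : (G.neighborSet m).ncard = 2) : m ∈ Y := by
  have := F.r1
  have := F.r2
  have := F.r3
  rcases F.nb a ha m hm with h1 | h1 | h1 | h1 | h1
  · exact h1
  · exact absurd h1 hmh
  all_goals subst h1; omega

/-- The members of `S ∪ T` have degree at least three, except `h`. -/
lemma Sq.real_ST [Finite V] (F : Sq G U Y κ h p q n1 n2 n3) {v : V}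
    (hv : v ∈ SS G Y p n3 ∪ TT h p n1 n2) : v = h ∨ 3 ≤ (G.neighborSet v).ncard := by
  rcases hv with (h1 | h1) | (h1 | h1 | h1 | h1)
  · rw [h1]; exact Or.inr F.r3
  · exact Or.inr h1.2.2
  · rw [h1]; exact Or.inr F.preal
  · exact Or.inl h1
  · rw [h1]; exact Or.inr F.r1
  · rw [h1]; exact Or.inr F.r2

/-- A vertex of `Y` of degree at least three is in `S ∪ T`. -/
lemma Sq.mem_ST [Finite V] (F : Sq G U Y κ h p q n1 n2 n3) {v : V}
    (hv : v ∈ Y) (hd : 3 ≤ (G.neighborSet v).ncard) : v ∈ SS G Y p n3 ∪ TT h p n1 n2 := by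
  by_cases h1 : v = p
  · exact Or.inr (Or.inl h1)
  · exact Or.inl (Or.inr ⟨hv, h1, hd⟩)

/-- Every link at a vertex of `S ∩ Y` belongs to the society. -/
lemma Sq.nbST [Finite V] (F : Sq G U Y κ h p q n1 n2 n3) {a v : V} (ha : a ∈ Y)
    (hv : G.Adj a v) (hd : v = h ∨ 3 ≤ (G.neighborSet v).ncard) :
    v ∈ SS G Y p n3 ∪ TT h p n1 n2 := by
  rcases F.nb a ha v hv with h1 | h1 | h1 | h1 | h1
  · rcases hd with h2 | h2
    · exact absurd (h2 ▸ h1) F.hY
    · exact F.mem_ST h1 h2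
  · exact Or.inr (Or.inr (Or.inl h1))
  · exact Or.inr (Or.inr (Or.inr (Or.inl h1)))
  · exact Or.inr (Or.inr (Or.inr (Or.inr h1)))
  · exact Or.inl (Or.inl h1)

end

end Pool.Agent.Helper94.F2
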