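import Pool.Agent.Helper94.F2.StubF

/-!
# Sparsity of the society
-/

set_option autoImplicit false

namespace Pool.Agent.Helper94.F2

open SimpleGraph Pool.Agent.Helper57.TOK Pool.Agent.Helper57.TD Pool.Agent.Helper57.TOP
  Pool.Agent.Helper82.TK Pool.Agent.Helper41.F2 Pool.Agent.Helper1.GL Pool.Agent.Helper97.PH

variable {V : Type*} {G : SimpleGraph V} {U Y : Set V} {κ : V → ZMod 2} {h p q n1 n2 n3 : V}

lemma Sq.STU (F : Sq G U Y κ h p q n1 n2 n3) {v : V}
    (hv : v ∈ SS G Y p n3 ∪ TT h p n1 n2) : v ∈ U := by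
  rcases hv with (h1 | h1) | (h1 | h1 | h1 | h1)
  · rw [h1]; exact F.n3U
  · exact F.YU h1.1
  · rw [h1]; exact F.YU F.pY
  · rw [h1]; exact F.hU
  · rw [h1]; exact F.n1U
  · rw [h1]; exact F.n2U

/-- Neighbours in the society are in `S ∪ T`. -/
lemma Nb_ST {D : Set V} {v : V} (hv : v ∈ Nb (ZG G Y h p n1 n2 n3) D) :
    v ∈ SS G Y p n3 ∪ TT h p n1 n2 := by
  obtain ⟨-, u, -, huv⟩ := hv
  exact huv.2.2.2.2

/-- The only neighbour of `h` in the society is `q`. -/
lemma Sq.adj_h_q [Finite V] (F : Sq G U Y κ h p q n1 n2 n3) {u : V}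
    (hu : (ZG G Y h p n1 n2 n3).Adj u h) : u = q := by
  have hhS : h ∉ SS G Y p n3 := by
    rintro (h6 | h6)
    · exact F.hn3 h6
    · exact F.hY h6.1
  have hpS : p ∉ SS G Y p n3 := by
    rintro (h6 | h6)
    · exact F.n3Y (h6 ▸ F.pY)
    · exact h6.2.1 rfl
  rcases F.zcases hu with ⟨h1, -⟩ | ⟨-, -, m, hm, h1⟩
  · rcases F.hand.adj.1 h1.symm with h2 | h2
    · exfalso
      rcases hu.2.2.1 with h3 | h3
      · exact hpS (h2 ▸ h3)
      · exact hhS h3
    · exact h2
  · exfalso
    have e2 := gmin_hand_real F.hM (F.YU hm) h1.symm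
    rw [F.hdeg] at e2
    omega

/-- The numbers at `q`: the set `{q}` does not give a violation. -/
lemma Sq.q_numbers [Finite V] (F : Sq G U Y κ h p q n1 n2 n3) {B : Set V} {b b' : V}
    (hB3 : B.ncard = 3) (hhB : h ∈ B) (hb : b ∈ B) (hb' : b' ∈ B) (hbh : b ≠ h) (hb'h : b' ≠ h)
    (hbb : b ≠ b') (hk : kh κ h p n3 + kh κ h p b = 1) (hk' : kh κ h p n3 + kh κ h p b' = 1)
    (hN : Nb (ZG G Y h p n1 n2 n3) {q} ⊆ insert n3 B)
    (hf : beta (kh κ h p) B + 1 ≤ fO (ZG G Y h p n1 n2 n3) (kh κ h p) {q}) : False := by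
  set k := kh κ h p with hkd
  have hBe : B = {h, b, b'} := by
    symm
    apply Set.eq_of_subset_of_ncard_le _ _ (Set.toFinite _)
    · rintro x (rfl | rfl | hx)
      · exact hhB
      · exact hb
      · rw [Set.mem_singleton_iff] at hx; rw [hx]; exact hb'
    · rw [hB3]
      apply le_of_eq
      symm
      rw [Set.ncard_eq_three]
      exact ⟨h, b, b', hbh.symm, hb'h.symm, hbb, rfl⟩
  have hqh : k q ≠ k h := by
    rw [hkd, kh_h, kh_ne κ h p (fun hh => F.hY (hh ▸ F.qY))]
    exact F.pq.symm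
  rw [fO_singleton] at hf
  rw [Nb_singleton] at hN
  have hsub : {w | (ZG G Y h p n1 n2 n3).Adj q w ∧ k q + k w = 1} ⊆
      {w | w ∈ ({n3, h, b, b'} : Set V) ∧ k q + k w = 1} := by
    rintro w ⟨g1, g2⟩
    refine ⟨?_, g2⟩
    have := hN g1
    rw [hBe] at this
    exact this
  by_cases h3 : k n3 = k h
  · -- odd neighbours of `q`: `n3` and `h`
    have h4 : {w | w ∈ ({n3, h, b, b'} : Set V) ∧ k q + k w = 1} ⊆ {n3, h} := by
      rintro w ⟨rfl | rfl | rfl | hw, g2⟩
      · exact Or.inl rfl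
      · exact Or.inr rfl
      · exfalso
        have e1 := add_eq_one_iff.1 g2
        have e2 := add_eq_one_iff.1 hk
        rw [h3] at e2
        exact e1 (eq_of_ne_of_ne hqh e2.symm)
      · exfalso
        rw [Set.mem_singleton_iff] at hw
        subst hw
        have e1 := add_eq_one_iff.1 g2
        have e2 := add_eq_one_iff.1 hk'
        rw [h3] at e2
        exact e1 (eq_of_ne_of_ne hqh e2.symm)
    have h5 := Set.ncard_le_ncard (hsub.trans h4) (Set.toFinite _)
    have h6 := ncard_pair_le' n3 h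
    have h7 := le_beta k B
    rw [hB3] at h7
    push_cast at h7
    omega
  · -- `B` has one colour
    have hm : Mono k B := by
      have e2 := add_eq_one_iff.1 hk
      have e3 := add_eq_one_iff.1 hk'
      have c1 : k b = k h := eq_of_ne_of_ne e2.symm (fun hh => h3 hh.symm)
      have c2 : k b' = k h := eq_of_ne_of_ne e3.symm (fun hh => h3 hh.symm)
      have key : ∀ x ∈ B, k x = k h := by
        rw [hBe]
        rintro x (rfl | rfl | hx)
        · rfl
        · exact c1
        · rw [Set.mem_singleton_iff] at hx; rw [hx]; exact c2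
      intro x hx y hy
      rw [key x hx, key y hy]
    rw [beta_of_mono hm, hB3] at hf
    have hq3 : k q = k n3 := eq_of_ne_of_ne hqh h3
    have h4 : {w | w ∈ ({n3, h, b, b'} : Set V) ∧ k q + k w = 1} ⊆ {h, b, b'} := by
      rintro w ⟨rfl | hw, g2⟩
      · exact absurd hq3 (add_eq_one_iff.1 g2)
      · exact hw
    have h5 := Set.ncard_le_ncard (hsub.trans h4) (Set.toFinite _)
    rw [← hBe, hB3] at h5
    push_cast at hf
    omega

/-- Condition M2. -/
theorem Sq.M2 [Finite V] (F : Sq G U Y κ h p q n1 n2 n3) {D : Set V}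
    (hD : D ⊆ SS G Y p n3) (hne : D.Nonempty) (hc : (Nb (ZG G Y h p n1 n2 n3) D).ncard ≤ 3) :
    fO (ZG G Y h p n1 n2 n3) (kh κ h p) D ≤
      beta (kh κ h p) (Nb (ZG G Y h p n1 n2 n3) D) := by
  classical
  set Z := ZG G Y h p n1 n2 n3 with hZ
  set k := kh κ h p with hk
  have hno : ∀ A : Set V, A ⊆ SS G Y p n3 → n3 ∉ A → A.Nonempty → (Nb Z A).ncard ≤ 4 →
      fO Z k A ≤ beta k (Nb Z A) := by
    intro A hA h3 hAne h4
    rw [← F.cl_fden hA h3, ← F.cl_Nb hA h3]
    apply gmin_P12 F.hM ((F.cl_sub hA h3).trans F.YU) (F.cl_pb hA h3)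
    · rw [F.cl_Nb hA h3]; exact F.three_le hA h3 hAne
    · rw [F.cl_Nb hA h3]; exact h4
  by_cases h3 : n3 ∈ D
  swap
  · exact hno D hD h3 hne (by omega)
  set A : Set V := D \ {n3} with hA
  have hDA : D = insert n3 A := by
    rw [hA, Set.insert_sdiff_singleton, Set.insert_eq_of_mem h3]
  have hAS : A ⊆ SS G Y p n3 := Set.sdiff_subset.trans hD
  have h3A : n3 ∉ A := fun hh => hh.2 rfl
  have hAc : A.ncard + 1 = D.ncard := Set.ncard_sdiff_singleton_add_one h3 (Set.toFinite _)
  by_cases hAne : A.Nonempty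
  swap
  · rw [Set.not_nonempty_iff_eq_empty] at hAne
    rw [hDA, hAne, LawfulSingleton.insert_empty_eq]
    apply fO_singleton_le
    exact (Set.ncard_pos (Set.toFinite _)).1 (lt_of_lt_of_le (by norm_num) F.n3_two)
  have hApos := (Set.ncard_pos (Set.toFinite _)).2 hAne
  have hB3 : (Nb Z D).ncard = 3 := le_antisymm hc (F.C2 hD (by omega))
  set B := Nb Z D with hB
  by_contra hlt
  push Not at hlt
  have hs : Nb Z A ⊆ insert n3 B := by
    have := F.Nb_split (A := A)
    rw [← hDA] at this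
    exact this
  have h3B : n3 ∉ B := fun hh => hh.1 h3
  have hN4 : (Nb Z A).ncard ≤ 4 := by
    have e1 := Set.ncard_le_ncard hs (Set.toFinite _)
    have e2 := Set.ncard_insert_le n3 B
    omega
  have hfA := hno A hAS h3A hAne hN4
  have hβ1 := beta_mono (κ := k) hs
  have hβ2 := beta_insert_le (κ := k) (N := B) (x := n3)
  have hins : fO Z k D = fO Z k A + ({w | Z.Adj n3 w ∧ k n3 + k w = 1 ∧ w ∉ A}.ncard : ℤ) - 2 := by
    conv_lhs => rw [hDA]
    exact fO_insert h3A
  set O : Set V := {w | Z.Adj n3 w ∧ k n3 + k w = 1 ∧ w ∉ A} with hO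
  have hOB : ∀ w ∈ O, w ∈ B ∧ G.Adj n3 w ∧ k n3 + k w = 1 := by
    rintro w ⟨g1, g2, g3⟩
    refine ⟨⟨?_, n3, h3, g1⟩, ?_, g2⟩
    · rw [hDA]
      rintro (h4 | h4)
      · exact g1.ne h4.symm
      · exact g3 h4
    · rcases F.zcases g1 with ⟨h4, -⟩ | ⟨-, h4, -⟩
      · exact h4
      · exact absurd h4 (add_eq_one_iff.1 g2)
  have hO2 : 2 ≤ O.ncard := by
    by_contra hlt2
    push Not at hlt2
    have e1 : (O.ncard : ℤ) ≤ 1 := by exact_mod_cast Nat.lt_succ_iff.1 hlt2
    linarith
  obtain ⟨b, hbO, b', hb'O, hbb⟩ := (Set.one_lt_ncard (Set.toFinite _)).1 hO2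
  obtain ⟨hbB, hb3, hbk⟩ := hOB b hbO
  obtain ⟨hb'B, hb'3, hb'k⟩ := hOB b' hb'O
  have hclY := F.cl_sub hAS h3A
  have hYT : ∀ t ∈ B, t ∉ cl G h A := by
    rintro t ht (h4 | ⟨h4, h5, -⟩)
    · exact ht.1 (by rw [hDA]; exact Or.inr h4)
    · rcases F.real_ST (Nb_ST ht) with h6 | h6
      · exact h4 h6
      · omega
  have hnb : ∀ u ∈ cl G h A, ∀ v, G.Adj u v → v ∈ cl G h A ∨ v = n3 ∨ v ∈ B := by
    intro u hu v huv
    by_cases hv : v ∈ cl G h A
    · exact Or.inl hv
    · right
      have h4 : v ∈ Nb G (cl G h A) := ⟨hv, u, hu, huv⟩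
      rw [F.cl_Nb hAS h3A] at h4
      exact hs h4
  have hbal := F.cl_pb hAS h3A
  have hfcl : fO G k (cl G h A) = fO Z k A := by
    rw [← hbal.fden]; exact F.cl_fden hAS h3A
  have hdens : beta k B + 1 ≤ fO (lG G (cl G h A) n3 B) k (insert n3 (cl G h A)) := by
    have h3c : n3 ∉ cl G h A := fun hh => F.n3Y (hclY hh)
    rw [fO_insert h3c]
    have e1 : fO (lG G (cl G h A) n3 B) k (cl G h A) = fO G k (cl G h A) := by
      apply fO_congr
      intro u v hu
      constructor
      · rintro ⟨g1, g2⟩; exact ⟨g1.1, g2⟩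
      · rintro ⟨g1, g2⟩; exact ⟨⟨g1, Or.inl hu⟩, g2⟩
    have e2 : O ⊆ {w | (lG G (cl G h A) n3 B).Adj n3 w ∧ k n3 + k w = 1 ∧ w ∉ cl G h A} := by
      intro w hw
      obtain ⟨g1, g2, g3⟩ := hOB w hw
      exact ⟨⟨g2, Or.inr (Or.inr (Or.inl ⟨rfl, g1⟩))⟩, g3, hYT w g1⟩
    have e3 := Set.ncard_le_ncard e2 (Set.toFinite _)
    have e4 : (O.ncard : ℤ) ≤
        ({w | (lG G (cl G h A) n3 B).Adj n3 w ∧ k n3 + k w = 1 ∧ w ∉ cl G h A}.ncard : ℤ) := by
      exact_mod_cast e3
    rw [e1, hfcl]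
    linarith
  have hPF : PF G U (cl G h A) n3 B k :=
    { w3 := Ex3.w3 F.hM.ex
      YU := hclY.trans F.YU
      lU := F.n3U
      TU := fun t ht => F.STU (Nb_ST ht)
      T3 := hB3
      lY := fun hh => F.n3Y (hclY hh)
      lT := h3B
      YT := hYT
      nb := hnb
      bal := balOn_one.2 hbal
      two := ⟨b, hbB, b', hb'B, hbb, hb3, hb'3, hbk, hb'k⟩
      sparse := by
        intro Y' hY' h2 h4 h5
        rw [odG_one]
        exact gmin_P1 F.hM (hY'.trans (hclY.trans F.YU)) (hbal.mono hY') h4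
      dens := hdens }
  have hreal : ∀ a ∈ A, 3 ≤ (G.neighborSet a).ncard := by
    intro a ha
    rcases hAS ha with h4 | h4
    · exact absurd (h4 ▸ ha) h3A
    · exact h4.2.2
  obtain ⟨a, ha⟩ := hAne
  rcases hPF.main with h4 | ⟨Y', κ', h4, ⟨t, ht, htY'⟩, h5, h6, h7⟩ |
    ⟨t0, b2, b3, hTe, t2, t3, b23, ht0, hkt, Q, hQ, hQw, hQs⟩
  · exact F.hM.bad h4
  · -- a large balanced set
    have hone := gmin_real_le_one F.hM h5 (balOn_one.1 h6) h7
    have hall : ∀ x ∈ A, x ∈ {y | y ∈ Y' ∧ 3 ≤ (G.neighborSet y).ncard} :=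
      fun x hx => ⟨h4 (Or.inl hx), hreal x hx⟩
    have htA : t ∉ A := by
      rcases ht with h8 | h8
      · rw [h8]; exact h3A
      · intro h9
        exact h8.1 (by rw [hDA]; exact Or.inr h9)
    have htST : t ∈ SS G Y p n3 ∪ TT h p n1 n2 := by
      rcases ht with h8 | h8
      · rw [h8]; exact Or.inl (Or.inl rfl)
      · exact Nb_ST h8
    rcases F.real_ST htST with h8 | h8
    · -- `t = h`
      subst h8
      have hhB : t ∈ B := by
        rcases ht with h8 | h8
        · exact absurd h8 F.hn3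
        · exact h8
      have hAa : A = {a} := by
        apply Set.eq_singleton_iff_unique_mem.2
        exact ⟨ha, fun x hx => eq_of_ncard_le_one hone (hall x hx) (hall a ha)⟩
      have haq : a = q := by
        obtain ⟨-, u, hu, hut⟩ := hhB
        have h9 := F.adj_h_q hut
        rw [hDA, hAa] at hu
        rcases hu with h10 | h10
        · exfalso
          exact F.n3Y (by rw [← h10, h9]; exact F.qY)
        · rw [Set.mem_singleton_iff] at h10
          rw [← h10]; exact h9
      subst haq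
      have hbh : b ≠ t := by
        rintro rfl
        rcases F.hand.adj.1 hb3.symm with h9 | h9
        · exact F.n3Y (h9 ▸ F.pY)
        · exact F.n3Y (h9 ▸ F.qY)
      have hb'h : b' ≠ t := by
        rintro rfl
        rcases F.hand.adj.1 hb'3.symm with h9 | h9
        · exact F.n3Y (h9 ▸ F.pY)
        · exact F.n3Y (h9 ▸ F.qY)
      have hO2' : O.ncard ≤ 2 := by
        have e1 : O ⊆ B \ {t} := by
          intro w hw
          refine ⟨(hOB w hw).1, ?_⟩
          rintro h9
          rw [Set.mem_singleton_iff] at h9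
          have h10 := (hOB w hw).2.1
          rw [h9] at h10
          rcases F.hand.adj.1 h10.symm with h11 | h11
          · exact F.n3Y (h11 ▸ F.pY)
          · exact F.n3Y (h11 ▸ F.qY)
        have e2 := Set.ncard_le_ncard e1 (Set.toFinite _)
        rw [Set.ncard_sdiff_singleton_of_mem hhB, hB3] at e2
        exact e2
      have hO2'' : (O.ncard : ℤ) ≤ 2 := by exact_mod_cast hO2'
      refine F.q_numbers hB3 hhB hbB hb'B hbh hb'h hbb hbk hb'k ?_ ?_
      · rw [← hAa]; exact hs
      · rw [← hAa]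
        linarith
    · have h8' : t ∈ {y | y ∈ Y' ∧ 3 ≤ (G.neighborSet y).ncard} := ⟨htY', h8⟩
      have h9 := eq_of_ncard_le_one hone h8' (hall a ha)
      exact htA (h9 ▸ ha)
  · -- the single edge exit
    have hOs : O ⊆ {b2, b3} := by
      intro w hw
      obtain ⟨g1, -, g3⟩ := hOB w hw
      rw [hTe] at g1
      rcases g1 with g1 | g1 | g1
      · exfalso
        exact add_eq_one_iff.1 g3 (g1 ▸ hkt)
      · exact Or.inl g1
      · exact Or.inr g1
    have hOe : O = {b2, b3} := by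
      apply Set.eq_of_subset_of_ncard_le hOs _ (Set.toFinite _)
      rw [Set.ncard_pair b23]; exact hO2
    have hb2O : b2 ∈ O := by rw [hOe]; exact Or.inl rfl
    have hb3O : b3 ∈ O := by rw [hOe]; exact Or.inr rfl
    obtain ⟨-, g2, g3⟩ := hOB b2 hb2O
    obtain ⟨-, g2', g3'⟩ := hOB b3 hb3O
    have k2 := add_eq_one_iff.1 g3
    have k3 := add_eq_one_iff.1 g3'
    have hOc : (O.ncard : ℤ) = 2 := by
      rw [hOe, Set.ncard_pair b23]; rfl
    have hnm : ¬ Mono k B := by
      intro hm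
      have e1 : t0 ∈ B := by rw [hTe]; exact Or.inl rfl
      have e2 : b2 ∈ B := by rw [hTe]; exact Or.inr (Or.inl rfl)
      exact k2 (hkt.trans (hm t0 e1 b2 e2))
    have hβB : beta k B = 0 := by
      rw [beta_of_not_mono hnm, hB3]; norm_num
    have hf1 : 1 ≤ fO Z k A := by linarith
    have hlB : (insert n3 B).ncard = 4 := by
      rw [Set.ncard_insert_of_notMem h3B (Set.toFinite _), hB3]
    have hNA : Nb Z A = insert n3 B := by
      apply Set.eq_of_subset_of_ncard_le hs _ (Set.toFinite _)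
      rw [hlB]
      by_contra hlt4
      push Not at hlt4
      have e1 := hfA
      have e2 : 3 ≤ (Nb Z A).ncard := F.three_le hAS h3A ⟨a, ha⟩
      have e3 : (Nb Z A).ncard = 3 := by omega
      by_cases hm : Mono k (Nb Z A)
      · -- three vertices of one colour among `n3, t0 | b2, b3`
        have e4 : Nb Z A ⊆ {n3, t0} ∨ Nb Z A ⊆ {b2, b3} := by
          have e5 : ∀ x ∈ Nb Z A, x = n3 ∨ x = t0 ∨ x = b2 ∨ x = b3 := by
            intro x hx
            have := hs hx
            rw [hTe] at this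
            exact this
          by_cases e6 : ∃ x ∈ Nb Z A, x = n3 ∨ x = t0
          · left
            obtain ⟨x, hx, hx'⟩ := e6
            have hxk : k x = k n3 := by
              rcases hx' with h8 | h8
              · rw [h8]
              · rw [h8]; exact hkt.symm
            intro y hy
            have hyk : k y = k n3 := (hm y hy x hx).trans hxk
            rcases e5 y hy with h8 | h8 | h8 | h8
            · exact Or.inl h8
            · exact Or.inr h8
            · exact absurd (h8 ▸ hyk).symm k2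
            · exact absurd (h8 ▸ hyk).symm k3
          · right
            push Not at e6
            intro y hy
            rcases e5 y hy with h8 | h8 | h8 | h8
            · exact absurd h8 (e6 y hy).1
            · exact absurd h8 (e6 y hy).2
            · exact Or.inl h8
            · exact Or.inr h8
        rcases e4 with e4 | e4
        · have e5 := Set.ncard_le_ncard e4 (Set.toFinite _)
          have e6 := ncard_pair_le' n3 t0
          omega
        · have e5 := Set.ncard_le_ncard e4 (Set.toFinite _)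
          have e6 := ncard_pair_le' b2 b3
          omega
      · rw [beta_of_not_mono hm, e3] at e1
        push_cast at e1
        linarith
    have hn3t0 : n3 ≠ t0 := fun hh => h3B (by rw [hTe]; exact Or.inl hh)
    refine fan_exit F.hM (hclY.trans F.YU) hbal (l := n3) (t0 := t0) (b2 := b2) (b3 := b3) ?_
      hn3t0 g2.ne g2'.ne t2 t3 b23 hkt k2 k3 ?_ ht0 g2 g2' Q hQ hQw hQs
    · rw [F.cl_Nb hAS h3A, hNA, hTe]
    · rw [F.cl_fden hAS h3A]; exact hf1

end Pool.Agent.Helper94.F2
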