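import Pool.Agent.Helper94.F2.Defs

/-!
# StubD: the number of edges of the society
-/

set_option autoImplicit false

namespace Pool.Agent.Helper94.F2

open SimpleGraph Pool.Agent.Helper57.TOK Pool.Agent.Helper57.TD Pool.Agent.Helper57.TOP
  Pool.Agent.Helper82.TK Pool.Agent.Helper41.F2

variable {V : Type*} {G : SimpleGraph V} {U Y : Set V} {κ : V → ZMod 2} {h p q n1 n2 n3 : V}

/-- The number of edges at vertices of degree two. -/
lemma rho_two_le [Finite V] (G : SimpleGraph V) (D : Set V)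
    (hD : ∀ d ∈ D, (G.neighborSet d).ncard = 2) : rho G D ≤ 2 * D.ncard := by
  classical
  cases nonempty_fintype V
  have h1 : EAt G D ⊆ ↑(D.toFinset.biUnion
      (fun d => (G.neighborSet d).toFinset.image (fun v => s(d, v)))) := by
    intro e he
    induction e using Sym2.ind with
    | _ u v =>
      rw [mem_EAt] at he
      rw [Finset.mem_coe, Finset.mem_biUnion]
      rcases he.2 with h2 | h2
      · refine ⟨u, Set.mem_toFinset.2 h2, ?_⟩
        rw [Finset.mem_image]
        exact ⟨v, Set.mem_toFinset.2 he.1, rfl⟩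
      · refine ⟨v, Set.mem_toFinset.2 h2, ?_⟩
        rw [Finset.mem_image]
        exact ⟨u, Set.mem_toFinset.2 he.1.symm, Sym2.eq_swap⟩
  have h2 := Set.ncard_le_ncard h1 (Set.toFinite _)
  rw [Set.ncard_coe_finset] at h2
  have h3 : (D.toFinset.biUnion
      (fun d => (G.neighborSet d).toFinset.image (fun v => s(d, v)))).card ≤
      ∑ d ∈ D.toFinset, 2 := by
    refine Finset.card_biUnion_le.trans (Finset.sum_le_sum ?_)
    intro d hd
    refine Finset.card_image_le.trans ?_
    rw [← Set.ncard_eq_toFinset_card', hD d (Set.mem_toFinset.1 hd)]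
  rw [Finset.sum_const, smul_eq_mul, ← Set.ncard_eq_toFinset_card'] at h3
  unfold rho
  omega

lemma add_one_of_ne {a b : ZMod 2} (h : a ≠ b) : a + b = 1 := by
  revert a b; decide

open Classical in
lemma ncard_ad (G : SimpleGraph V) (u v : V) :
    (({e | e = s(u, v) ∧ G.Adj u v} : Set (Sym2 V)).ncard : ℤ) = ad G u v := by
  unfold ad
  split_ifs with h1
  · have : ({e | e = s(u, v) ∧ G.Adj u v} : Set (Sym2 V)) = {s(u, v)} := by
      ext e
      simp only [Set.mem_ofPred_eq, Set.mem_singleton_iff]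
      exact ⟨fun h2 => h2.1, fun h2 => ⟨h2, h1⟩⟩
    rw [this, Set.ncard_singleton]
    rfl
  · have : ({e | e = s(u, v) ∧ G.Adj u v} : Set (Sym2 V)) = ∅ := by
      ext e
      simp only [Set.mem_ofPred_eq, Set.mem_empty_iff_false, iff_false]
      exact fun h2 => h1 h2.2
    rw [this, Set.ncard_empty]
    rfl

/-- `EAt G Y` consists of the odd edges of the society, `2` edges for each vertex of degree two in
`Y`, the edge `p h`, and the edges `p n1`, `p n2` if they exist; `|S| = |Y| -` (number of vertices of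
degree two in `Y`). -/
theorem Sq.fO_S [Finite V] (F : Sq G U Y κ h p q n1 n2 n3) :
    fden G Y - 1 - ad G p n1 - ad G p n2 ≤
      fO (ZG G Y h p n1 n2 n3) (kh κ h p) (SS G Y p n3) := by
  classical
  set D : Set V := {m | m ∈ Y ∧ (G.neighborSet m).ncard = 2} with hD
  set R : Set V := {m | m ∈ Y ∧ 3 ≤ (G.neighborSet m).ncard} with hR
  have hYRD : Y = R ∪ D := by
    ext y
    constructor
    · intro hy
      have h1 := F.hM.ex.deg2 y (F.YU hy)
      by_cases h2 : (G.neighborSet y).ncard = 2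
      · exact Or.inr ⟨hy, h2⟩
      · exact Or.inl ⟨hy, by omega⟩
    · rintro (h1 | h1)
      · exact h1.1
      · exact h1.1
  have hdisj : Disjoint R D := by
    rw [Set.disjoint_left]
    intro x h1 h2
    have h3 := h1.2
    have h4 := h2.2
    omega
  have hYc : Y.ncard = R.ncard + D.ncard := by
    conv_lhs => rw [hYRD]
    exact Set.ncard_union_eq hdisj (Set.toFinite _) (Set.toFinite _)
  have hpR : p ∈ R := ⟨F.pY, F.preal⟩
  have hSc : (SS G Y p n3).ncard = R.ncard := by
    have h1 : SS G Y p n3 = insert n3 (R \ {p}) := by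
      unfold SS
      congr 1
      ext v
      constructor
      · rintro ⟨h1, h2, h3⟩
        exact ⟨⟨h1, h3⟩, h2⟩
      · rintro ⟨⟨h1, h3⟩, h2⟩
        exact ⟨h1, h2, h3⟩
    rw [h1, Set.ncard_insert_of_notMem, Set.ncard_sdiff_singleton_add_one hpR (Set.toFinite _)]
    intro h2
    exact F.n3Y h2.1.1
  have hph : p ≠ h := fun h1 => F.hY (h1 ▸ F.pY)
  have hcov : EAt G Y ⊆ EAt G D ∪ ({s(p, h)} ∪ ({e | e = s(p, n1) ∧ G.Adj p n1} ∪
      ({e | e = s(p, n2) ∧ G.Adj p n2} ∪
        EAt (oddG (ZG G Y h p n1 n2 n3) (kh κ h p)) (SS G Y p n3)))) := by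
    have key : ∀ u v, u ∈ Y → G.Adj u v → s(u, v) ∈ EAt G D ∪ ({s(p, h)} ∪
        ({e | e = s(p, n1) ∧ G.Adj p n1} ∪ ({e | e = s(p, n2) ∧ G.Adj p n2} ∪
        EAt (oddG (ZG G Y h p n1 n2 n3) (kh κ h p)) (SS G Y p n3)))) := by
      intro u v hu huv
      by_cases huD : u ∈ D
      · exact Or.inl (mem_EAt.2 ⟨huv, Or.inl huD⟩)
      by_cases hvD : v ∈ D
      · exact Or.inl (mem_EAt.2 ⟨huv, Or.inr hvD⟩)
      have huR : u ∈ R := by
        rw [hYRD] at hu
        exact hu.resolve_right huD
      have huh : u ≠ h := fun h1 => F.hY (h1 ▸ hu)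
      right
      by_cases hup : u = p
      · subst hup
        rcases F.nb u hu v huv with h1 | h1 | h1 | h1 | h1
        · have hvR : v ∈ R := by
            rw [hYRD] at h1
            exact h1.resolve_right hvD
          have hvh : v ≠ h := fun h2 => F.hY (h2 ▸ h1)
          have hvS : v ∈ SS G Y u n3 := Or.inr ⟨h1, huv.ne', hvR.2⟩
          refine Or.inr (Or.inr (Or.inr (mem_EAt.2 ⟨?_, Or.inr hvS⟩)))
          refine oddG_adj.2 ⟨⟨Or.inl huv, Or.inl hu, Or.inr hvS, Or.inr (Or.inl rfl),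
            Or.inl hvS⟩, ?_⟩
          rw [kh_ne κ h u huh, kh_ne κ h u hvh]
          exact add_one_of_ne (F.bal u hu v hvh huv)
        · rw [h1]; exact Or.inl rfl
        · subst h1
          exact Or.inr (Or.inl ⟨rfl, huv⟩)
        · subst h1
          exact Or.inr (Or.inr (Or.inl ⟨rfl, huv⟩))
        · subst h1
          have hvh : v ≠ h := fun h2 => F.hn3 h2.symm
          have hvS : v ∈ SS G Y u v := Or.inl rfl
          refine Or.inr (Or.inr (Or.inr (mem_EAt.2 ⟨?_, Or.inr hvS⟩)))
          refine oddG_adj.2 ⟨⟨Or.inl huv, Or.inl hu, Or.inr hvS, Or.inr (Or.inl rfl),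
            Or.inl hvS⟩, ?_⟩
          rw [kh_ne κ h u huh, kh_ne κ h u hvh]
          exact add_one_of_ne (F.bal u hu v hvh huv)
      · have huS : u ∈ SS G Y p n3 := Or.inr ⟨hu, hup, huR.2⟩
        have hvr : v = h ∨ 3 ≤ (G.neighborSet v).ncard := by
          rcases F.nb u hu v huv with h1 | h1 | h1 | h1 | h1
          · right
            rw [hYRD] at h1
            exact (h1.resolve_right hvD).2
          · exact Or.inl h1
          · rw [h1]; exact Or.inr F.r1
          · rw [h1]; exact Or.inr F.r2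
          · rw [h1]; exact Or.inr F.r3
        have hvST := F.nbST hu huv hvr
        refine Or.inr (Or.inr (Or.inr (mem_EAt.2 ⟨?_, Or.inl huS⟩)))
        refine oddG_adj.2 ⟨⟨Or.inl huv, Or.inl hu, Or.inl huS, Or.inl huS, hvST⟩, ?_⟩
        rw [kh_ne κ h p huh]
        by_cases hvh : v = h
        · subst hvh
          rw [kh_h]
          have h2 := (F.adj_h u).1 huv.symm
          rcases h2 with h2 | h2
          · exact absurd h2 hup
          · rw [h2]; exact add_one_of_ne F.pq.symm
        · rw [kh_ne κ h p hvh]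
          exact add_one_of_ne (F.bal u hu v hvh huv)
    intro e he
    induction e using Sym2.ind with
    | _ u v =>
      rw [mem_EAt] at he
      rcases he.2 with h1 | h1
      · exact key u v h1 he.1
      · have e1 : s(u, v) = s(v, u) := Sym2.eq_swap
        rw [e1]
        exact key v u h1 he.1.symm
  have h1 := Set.ncard_le_ncard hcov (Set.toFinite _)
  have h2 := Set.ncard_union_le (EAt G D) ({s(p, h)} ∪ ({e | e = s(p, n1) ∧ G.Adj p n1} ∪
      ({e | e = s(p, n2) ∧ G.Adj p n2} ∪
        EAt (oddG (ZG G Y h p n1 n2 n3) (kh κ h p)) (SS G Y p n3))))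
  have h3 := Set.ncard_union_le ({s(p, h)} : Set (Sym2 V)) ({e | e = s(p, n1) ∧ G.Adj p n1} ∪
      ({e | e = s(p, n2) ∧ G.Adj p n2} ∪
        EAt (oddG (ZG G Y h p n1 n2 n3) (kh κ h p)) (SS G Y p n3)))
  have h4 := Set.ncard_union_le ({e | e = s(p, n1) ∧ G.Adj p n1} : Set (Sym2 V))
      ({e | e = s(p, n2) ∧ G.Adj p n2} ∪
        EAt (oddG (ZG G Y h p n1 n2 n3) (kh κ h p)) (SS G Y p n3))
  have h5 := Set.ncard_union_le ({e | e = s(p, n2) ∧ G.Adj p n2} : Set (Sym2 V))
        (EAt (oddG (ZG G Y h p n1 n2 n3) (kh κ h p)) (SS G Y p n3))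
  have h6 := rho_two_le G D (fun d hd => hd.2)
  have h7 := ncard_ad G p n1
  have h8 := ncard_ad G p n2
  rw [Set.ncard_singleton] at h3
  unfold fO fden rho at *
  rw [hYc, hSc, ← h7, ← h8]
  push_cast
  omega

end Pool.Agent.Helper94.F2
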