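import Pool.Agent.Helper94.F2.StubE

/-!
# StubG: a frame of the society gives a TOK4
-/

set_option autoImplicit false

namespace Pool.Agent.Helper94.F2

open SimpleGraph Pool.Agent.Helper57.TOK Pool.Agent.Helper57.TD Pool.Agent.Helper57.TOP
  Pool.Agent.Helper82.TK Pool.Agent.Helper41.F2

variable {V : Type*} {G : SimpleGraph V} {U Y : Set V} {κ : V → ZMod 2} {h p q n1 n2 n3 : V}

/-- A label function: the vertices of degree two in `Y` get their pair of neighbours. -/
lemma exists_lab (G : SimpleGraph V) (Y : Set V) (n1 n2 : V) : ∃ lab : V → Sym2 V,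
    (∀ m u v, m ∈ Y → Hand G m u v → lab m = s(u, v)) ∧ ∀ m, m ∉ Y → lab m = s(n1, n2) := by
  classical
  have key : ∀ m : V, ∃ e : Sym2 V, (∀ u v, m ∈ Y → Hand G m u v → e = s(u, v)) ∧
      (m ∉ Y → e = s(n1, n2)) := by
    intro m
    by_cases hm : m ∈ Y
    · by_cases hh : ∃ u v, Hand G m u v
      · obtain ⟨u, v, hh⟩ := hh
        refine ⟨s(u, v), ?_, fun h1 => absurd hm h1⟩
        intro u' v' _ hh'
        have hN : ({u, v} : Set V) = {u', v'} := hh.nb.symm.trans hh'.nb
        have h1 : u = u' ∨ u = v' := by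
          have : u ∈ ({u', v'} : Set V) := by rw [← hN]; exact Or.inl rfl
          exact this
        have h2 : v = u' ∨ v = v' := by
          have : v ∈ ({u', v'} : Set V) := by rw [← hN]; exact Or.inr rfl
          exact this
        rw [Sym2.eq_iff]
        rcases h1 with h1 | h1 <;> rcases h2 with h2 | h2
        · exact absurd (h1.trans h2.symm) hh.ne
        · exact Or.inl ⟨h1, h2⟩
        · exact Or.inr ⟨h1, h2⟩
        · exact absurd (h1.trans h2.symm) hh.ne
      · exact ⟨s(n1, n2), fun u v _ h1 => absurd ⟨u, v, h1⟩ hh, fun _ => rfl⟩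
    · exact ⟨s(n1, n2), fun u v h1 _ => absurd h1 hm, fun _ => rfl⟩
  choose lab h1 h2 using key
  exact ⟨lab, h1, h2⟩

lemma p_notS (F : Sq G U Y κ h p q n1 n2 n3) : p ∉ SS G Y p n3 := by
  rintro (h6 | h6)
  · exact F.n3Y (h6 ▸ F.pY)
  · exact h6.2.1 rfl

lemma h_notS (F : Sq G U Y κ h p q n1 n2 n3) : h ∉ SS G Y p n3 := by
  rintro (h6 | h6)
  · exact F.hn3 h6
  · exact F.hY h6.1

lemma n1_notS (F : Sq G U Y κ h p q n1 n2 n3) : n1 ∉ SS G Y p n3 := by
  rintro (h6 | h6)
  · exact F.n13 h6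
  · exact F.n1Y h6.1

lemma n2_notS (F : Sq G U Y κ h p q n1 n2 n3) : n2 ∉ SS G Y p n3 := by
  rintro (h6 | h6)
  · exact F.n23 h6
  · exact F.n2Y h6.1

/-- The virtual edge `p h` is the edge `p h` of `G`, the virtual edge `n1 n2` is the path `F.link12`,
an even edge of the society is a path of length two through a vertex of degree two in `Y`
(`Sq.zcases`): `FrameE.realize`. -/
theorem Sq.realize [Finite V] (F : Sq G U Y κ h p q n1 n2 n3)
    (hF : FrameE (ZG G Y h p n1 n2 n3) (kh κ h p) p h n1 n2) : False := by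
  classical
  obtain ⟨Q, q1, q2, q3⟩ := F.link12
  obtain ⟨lab, l1, l2⟩ := exists_lab G Y n1 n2
  have hph : p ≠ h := F.hand.hp.ne'
  have hsub : supp (ZG G Y h p n1 n2 n3) ∪ {p, h, n1, n2} ⊆ SS G Y p n3 ∪ TT h p n1 n2 := by
    rintro x (⟨y, hy⟩ | hx)
    · exact hy.2.2.2.1
    · exact Or.inr hx
  have him : ∀ z, z ∉ SS G Y p n3 ∪ TT h p n1 n2 →
      z ∉ (id : V → V) '' (supp (ZG G Y h p n1 n2 n3) ∪ {p, h, n1, n2}) := by
    rintro z hz ⟨x, hx, rfl⟩
    exact hz (hsub hx)
  apply F.hM.bad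
  refine FrameE.realize (G := G) (φ := id) (lab := lab) (Set.injOn_id _) ?_ ?_ ?_
    (Walk.cons F.hand.hp.symm Walk.nil) Q ?_ q1 ?_ ?_ ?_ ?_ hF
  · intro x y hxy
    rcases F.zcases hxy with ⟨h1, h2⟩ | ⟨-, h2, m, hm, h3⟩
    · refine ⟨Walk.cons h1 Walk.nil, ?_, ?_, ?_⟩
      · rw [Walk.cons_isPath_iff]
        exact ⟨Walk.IsPath.nil, by simpa using h1.ne⟩
      · rw [wt_cons, wt_nil, add_zero]
        exact (add_eq_one_iff.2 h2).symm
      · intro z hz
        simp only [Walk.support_cons, Walk.support_nil, List.mem_cons, List.not_mem_nil,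
          or_false] at hz
        exact hz.imp id Or.inl
    · refine ⟨Walk.cons h3.hp.symm (Walk.cons h3.hq Walk.nil), ?_, ?_, ?_⟩
      · rw [Walk.cons_isPath_iff, Walk.cons_isPath_iff]
        refine ⟨⟨Walk.IsPath.nil, by simpa using h3.hq.ne⟩, ?_⟩
        simp only [Walk.support_cons, Walk.support_nil, List.mem_cons, List.not_mem_nil, or_false,
          not_or]
        exact ⟨h3.hp.ne', h3.ne⟩
      · rw [wt_cons, wt_cons, wt_nil, add_zero, h2, CharTwo.add_self_eq_zero,
          CharTwo.add_self_eq_zero]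
      · intro z hz
        simp only [Walk.support_cons, Walk.support_nil, List.mem_cons, List.not_mem_nil,
          or_false] at hz
        rcases hz with hz | hz | hz
        · exact Or.inl hz
        · refine Or.inr (Or.inr ⟨by rw [hz]; exact l1 m x y hm h3, him z ?_⟩)
          rw [hz]
          intro hm'
          have := F.realY hm' hm
          rw [Hand.deg h3] at this
          omega
        · exact Or.inr (Or.inl hz)
  · intro hh
    rcases hh.2.2.1 with h1 | h1
    · exact p_notS F h1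
    · exact h_notS F h1
  · intro hh
    rcases hh.2.2.1 with h1 | h1
    · exact n1_notS F h1
    · exact n2_notS F h1
  · rw [Walk.cons_isPath_iff]
    exact ⟨Walk.IsPath.nil, by simpa using hph⟩
  · rw [wt_cons, wt_nil, add_zero]
    unfold vl
    rw [kh_h, kh_ne κ h p hph, add_assoc, CharTwo.add_self_eq_zero, add_zero]
  · rw [q2]
    unfold vl
    rw [kh_ne κ h p F.hn1.symm, kh_ne κ h p F.hn2.symm]
    ring
  · intro z hz
    simp only [Walk.support_cons, Walk.support_nil, List.mem_cons, List.not_mem_nil,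
      or_false] at hz
    exact hz.imp id Or.inl
  · intro z hz
    rcases q3 z hz with h1 | h1 | h1
    · exact Or.inl h1
    · exact Or.inr (Or.inl h1)
    · refine Or.inr (Or.inr ⟨l2 z h1.2.1, him z ?_⟩)
      rintro ((h2 | h2) | (h2 | h2 | h2 | h2))
      · exact h1.2.2.2.2.2 h2
      · exact h1.2.1 h2.1
      · exact h1.2.1 (h2 ▸ F.pY)
      · exact h1.2.2.1 h2
      · exact h1.2.2.2.1 h2
      · exact h1.2.2.2.2.1 h2

end Pool.Agent.Helper94.F2
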