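import Pool.Agent.Helper94.F2.StubB
import Pool.Agent.Helper94.F2.StubD
import Pool.Agent.Helper94.F2.M2
import Pool.Agent.Helper94.F2.StubG
import Pool.Agent.Helper41.F2.Last4

/-!
# F2c is impossible
-/

set_option autoImplicit false

namespace Pool.Agent.Helper94.F2

open SimpleGraph Pool.Agent.Helper57.TOK Pool.Agent.Helper57.TD Pool.Agent.Helper57.TOP
  Pool.Agent.Helper82.TK Pool.Agent.Helper41.F2 Pool.Agent.Helper1.GL

variable {V : Type*} {G : SimpleGraph V} {U Y : Set V} {κ : V → ZMod 2} {h p q n1 n2 n3 : V}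

lemma Sq.pn (F : Sq G U Y κ h p q n1 n2 n3) : p ≠ n1 ∧ p ≠ n2 ∧ p ≠ n3 :=
  ⟨fun hh => F.n1Y (hh ▸ F.pY), fun hh => F.n2Y (hh ▸ F.pY), fun hh => F.n3Y (hh ▸ F.pY)⟩

lemma Sq.ph (F : Sq G U Y κ h p q n1 n2 n3) : p ≠ h := fun hh => F.hY (hh ▸ F.pY)

lemma Sq.T4 [Finite V] (F : Sq G U Y κ h p q n1 n2 n3) : (TT h p n1 n2).ncard = 4 := by
  have h1 : n1 ∉ ({n2} : Set V) := F.n12
  have h2 : h ∉ ({n1, n2} : Set V) := by
    rintro (hh | hh)
    · exact F.hn1 hh
    · exact F.hn2 hh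
  have h3 : p ∉ ({h, n1, n2} : Set V) := by
    rintro (hh | hh | hh)
    · exact F.ph hh
    · exact F.pn.1 hh
    · exact F.pn.2.1 hh
  unfold TT
  rw [Set.ncard_insert_of_notMem h3 (Set.toFinite _),
    Set.ncard_insert_of_notMem h2 (Set.toFinite _), Set.ncard_insert_of_notMem h1 (Set.toFinite _),
    Set.ncard_singleton]

lemma Sq.disjST (F : Sq G U Y κ h p q n1 n2 n3) : Disjoint (SS G Y p n3) (TT h p n1 n2) := by
  rw [Set.disjoint_left]
  rintro x (h1 | ⟨h1, h1', -⟩) (h2 | h2 | h2 | h2)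
  · exact F.pn.2.2 (h2.symm.trans h1)
  · exact F.hn3 (h2.symm.trans h1)
  · exact F.n13 (h2.symm.trans h1)
  · exact F.n23 ((Set.mem_singleton_iff.1 h2).symm.trans h1)
  · exact h1' h2
  · exact F.hY (h2 ▸ h1)
  · exact F.n1Y (h2 ▸ h1)
  · rw [Set.mem_singleton_iff] at h2
    exact F.n2Y (h2 ▸ h1)

/-- The society satisfies the conditions of Theorem D. -/
theorem Sq.soc [Finite V] (F : Sq G U Y κ h p q n1 n2 n3)
    (hd : beta (kh κ h p) (TT h p n1 n2) + 2 + ad G p n1 + ad G p n2 ≤ fden G Y) :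
    Soc false (ZG G Y h p n1 n2 n3) (kh κ h p) (SS G Y p n3) (TT h p n1 n2) where
  T4 := F.T4
  disj := F.disjST
  edge_mem := fun _ _ huv => huv.2.2.2.1
  edge_S := fun _ _ huv => huv.2.2.1
  M1 := by
    show beta (kh κ h p) (TT h p n1 n2) + 1 ≤ _
    have := F.fO_S
    linarith
  TT := fun hh => absurd hh (by decide)
  M2 := fun D hD hne hc => F.M2 hD hne hc
  C1 := fun s hs => F.C1 hs
  C2 := fun D hD h2 => F.C2 hD h2

/-- A dense society is impossible. -/
theorem Sq.dense_false [Finite V] (F : Sq G U Y κ h p q n1 n2 n3)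
    (hd : beta (kh κ h p) (TT h p n1 n2) + 2 + ad G p n1 + ad G p n2 ≤ fden G Y) : False := by
  refine F.realize (theoremD _ _ _ _ (F.soc hd) p ?_ h ?_ n1 ?_ n2 ?_ F.ph F.pn.1 F.pn.2.1
    F.hn1 F.hn2 F.n12)
  · exact Or.inl rfl
  · exact Or.inr (Or.inl rfl)
  · exact Or.inr (Or.inr (Or.inl rfl))
  · exact Or.inr (Or.inr (Or.inr rfl))

/-- The last case (helper41). -/
theorem Sq.last [Finite V] (F : Sq G U Y κ h p q n1 n2 n3) (h1 : κ n1 = κ p) (h2 : κ n2 = κ p)
    (h3 : κ n3 = κ q) (a1 : G.Adj q n1) (a2 : G.Adj q n2) (a3 : G.Adj p n3) : False :=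
  L2.contra { F.toF2 with c1 := h1, c2 := h2, c3 := h3, qn1 := a1, qn2 := a2, pn3 := a3 }

lemma ad_zero {u v : V} (hh : ¬ G.Adj u v) : ad G u v = 0 := if_neg hh

/-- No edge between `p` and a vertex of its colour. -/
lemma Sq.ad_p1 (F : Sq G U Y κ h p q n1 n2 n3) (hk : κ n1 = κ p) : ad G p n1 = 0 :=
  ad_zero (fun hh => F.bal p F.pY n1 F.hn1.symm hh hk.symm)

lemma Sq.ad_p2 (F : Sq G U Y κ h p q n1 n2 n3) (hk : κ n2 = κ p) : ad G p n2 = 0 :=
  F.swap12.ad_p1 hk

lemma Sq.kT (F : Sq G U Y κ h p q n1 n2 n3) :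
    kh κ h p p = κ p ∧ kh κ h p n1 = κ n1 ∧ kh κ h p n2 = κ n2 :=
  ⟨kh_ne κ h p F.ph, kh_ne κ h p F.hn1.symm, kh_ne κ h p F.hn2.symm⟩

/-- One colour at the terminals. -/
lemma Sq.mono_false [Finite V] (F : Sq G U Y κ h p q n1 n2 n3) (h1 : κ n1 = κ p)
    (h2 : κ n2 = κ p) (hf : 4 ≤ fden G Y) : False := by
  apply F.dense_false
  rw [F.ad_p1 h1, F.ad_p2 h2]
  have h3 := beta_le (kh κ h p) (TT h p n1 n2)
  rw [F.T4] at h3
  push_cast at h3
  linarith

/-- Two colours at the terminals, no edge between `p` and `n1`, `n2`. -/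
lemma Sq.mixed_false [Finite V] (F : Sq G U Y κ h p q n1 n2 n3) (h1 : κ n1 ≠ κ n2)
    (a1 : ¬ G.Adj p n1) (a2 : ¬ G.Adj p n2) : False := by
  apply F.dense_false
  rw [ad_zero a1, ad_zero a2]
  have h3 : ¬ Mono (kh κ h p) (TT h p n1 n2) := by
    intro hm
    have := hm n1 (Or.inr (Or.inr (Or.inl rfl))) n2 (Or.inr (Or.inr (Or.inr rfl)))
    rw [F.kT.2.1, F.kT.2.2] at this
    exact h1 this
  rw [beta_of_not_mono h3, F.T4]
  have := F.dens
  push_cast
  linarith

theorem Sq.false_mixed [Finite V] (F : Sq G U Y κ h p q n1 n2 n3) (h12 : κ n1 = κ n2)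
    (h13 : κ n1 ≠ κ n3) : False := by
  have main : ∀ {p q : V}, Sq G U Y κ h p q n1 n2 n3 → κ n1 = κ p → κ n3 = κ q → False := by
    intro p q F hp hq
    have h23 : κ n2 ≠ κ n3 := h12 ▸ h13
    -- `p` and `n3`
    by_cases a3 : G.Adj p n3
    · by_cases a1 : G.Adj q n1
      · by_cases a2 : G.Adj q n2
        · exact F.last hp (h12 ▸ hp) hq a1 a2 a3
        · -- terminals `q, h, n2, n3`
          have F' := F.symm_pq.swap13
          refine F'.mixed_false h23.symm ?_ a2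
          intro hh
          exact F.symm_pq.bal q F.qY n3 F.hn3.symm hh hq.symm
      · -- terminals `q, h, n1, n3`
        have F' := F.symm_pq.swap23
        refine F'.mixed_false h13 a1 ?_
        intro hh
        exact F.symm_pq.bal q F.qY n3 F.hn3.symm hh hq.symm
    · -- terminals `p, h, n1, n3`
      have F' := F.swap23
      refine F'.mixed_false h13 ?_ a3
      intro hh
      exact F.bal p F.pY n1 F.hn1.symm hh hp.symm
  by_cases hp : κ n1 = κ p
  · have hq : κ n3 = κ q := eq_of_ne_of_ne h13.symm (fun hh => F.pq (hp.symm.trans hh.symm))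
    exact main F hp hq
  · have hq : κ n1 = κ q := eq_of_ne_of_ne hp F.pq.symm
    have hp' : κ n3 = κ p := eq_of_ne_of_ne h13.symm (fun hh => hp hh.symm)
    exact main F.symm_pq hq hp'

theorem Sq.false [Finite V] (F : Sq G U Y κ h p q n1 n2 n3) : False := by
  by_cases h12 : κ n1 = κ n2
  · by_cases h13 : κ n1 = κ n3
    · -- one colour
      have hm : Mono κ {n1, n2, n3} := by
        have key : ∀ x ∈ ({n1, n2, n3} : Set V), κ x = κ n1 := by
          rintro x (rfl | rfl | hx)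
          · rfl
          · exact h12.symm
          · rw [Set.mem_singleton_iff] at hx
            rw [hx]; exact h13.symm
        intro x hx y hy
        rw [key x hx, key y hy]
      have hN3 : ({n1, n2, n3} : Set V).ncard = 3 := by
        rw [Set.ncard_eq_three]
        exact ⟨n1, n2, n3, F.n12, F.n13, F.n23, rfl⟩
      have hd := F.dense
      rw [beta_of_mono hm, hN3] at hd
      push_cast at hd
      by_cases hp : κ n1 = κ p
      · exact F.mono_false hp (h12 ▸ hp) (by linarith)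
      · have hq : κ n1 = κ q := eq_of_ne_of_ne hp F.pq.symm
        exact F.symm_pq.mono_false hq (h12 ▸ hq) (by linarith)
    · exact F.false_mixed h12 h13
  · by_cases h13 : κ n1 = κ n3
    · exact F.swap23.false_mixed h13 h12
    · have h23 : κ n3 = κ n2 := eq_of_ne_of_ne (fun hh => h13 hh.symm) (fun hh => h12 hh.symm)
      exact F.swap13.false_mixed h23 (fun hh => h13 hh.symm)

/-- **F2c is impossible** if every vertex of degree two is in the situation F2c. -/
theorem f2c_false [Finite V] (hM : GMin G U)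
    (hall : ∀ h p q, h ∈ U → Hand G h p q → ∃ Y κ, F2c G U h p q Y κ)
    (hU : h ∈ U) (hh : Hand G h p q) : False := by
  obtain ⟨Y, κ, hm⟩ := exists_F2m hM (hall h p q hU hh)
  obtain ⟨n1, n2, n3, hs⟩ := hm.exists_sq (ht_of_all hM hall)
  exact hs.false

end Pool.Agent.Helper94.F2
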