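import Pool.Agent.Helper94.F2.Main

/-!
# No vertex of degree two, given that mixed cuts are impossible
-/

set_option autoImplicit false

namespace Pool.Agent.Helper94.F2

open SimpleGraph Pool.Agent.Helper57.TOK Pool.Agent.Helper57.TD Pool.Agent.Helper57.TOP
  Pool.Agent.Helper82.TK

variable {V : Type*} {G : SimpleGraph V} {U : Set V}

/-- If a mixed cut of a vertex `h` of degree two without a dense set is impossible, then there is no
vertex of degree two. -/
theorem deg3_of_mix [Finite V] (hM : GMin G U)
    (hmix : ∀ h p q a b A B, Mix G U h p q a b A B → (∀ Y κ, ¬ F2c G U h p q Y κ) → False) :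
    ∀ y ∈ U, 3 ≤ (G.neighborSet y).ncard := by
  have hall : ∀ h p q, h ∈ U → Hand G h p q → ∃ Y κ, F2c G U h p q Y κ := by
    intro h p q hU hh
    rcases gmin_hand_cases hM hU hh with ⟨a, b, A, B, hm⟩ | hf
    · by_contra hno
      push Not at hno
      exact hmix h p q a b A B hm hno
    · exact hf
  intro y hy
  by_contra hlt
  have h2 := hM.ex.deg2 y hy
  obtain ⟨p, q, hh⟩ := exists_hand (by omega : (G.neighborSet y).ncard = 2)
  exact f2c_false hM hall hy hh

end Pool.Agent.Helper94.F2
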