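import Pool.Agent.Helper94.F2.Defs

/-!
# StubA: smallest dense sets of `G - h`
-/

set_option autoImplicit false

namespace Pool.Agent.Helper94.F2

open SimpleGraph Pool.Agent.Helper57.TOK Pool.Agent.Helper57.TD Pool.Agent.Helper57.TOP
  Pool.Agent.Helper82.TK Pool.Agent.Helper41.F2

variable {V : Type*}

/-- A smallest dense set for `h`. -/
structure F2m (G : SimpleGraph V) (U : Set V) (h p q : V) (Y : Set V) (κ : V → ZMod 2) :
    Prop where
  gmin : GMin G U
  f : F2c G U h p q Y κ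
  min : ∀ Y' κ', F2c G U h p q Y' κ' → Y.ncard ≤ Y'.ncard

section

variable {G : SimpleGraph V} {U : Set V} {h p q : V} {Y : Set V} {κ : V → ZMod 2}

theorem exists_F2m (hM : GMin G U) (hf : ∃ Y κ, F2c G U h p q Y κ) :
    ∃ Y κ, F2m G U h p q Y κ := by
  classical
  have h1 : ∃ n, ∃ Y κ, F2c G U h p q Y κ ∧ Y.ncard = n := by
    obtain ⟨Y, κ, h⟩ := hf
    exact ⟨_, Y, κ, h, rfl⟩
  obtain ⟨Y, κ, h2, h3⟩ := Nat.find_spec h1
  refine ⟨Y, κ, hM, h2, fun Y' κ' h' => ?_⟩
  rw [h3]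
  exact Nat.find_min' h1 ⟨Y', κ', h', rfl⟩

lemma f2c_symm (hf : F2c G U h p q Y κ) : F2c G U h q p Y κ :=
  ⟨hf.hand.symm, hf.hU, hf.YU, hf.hY, hf.qY, hf.pY, hf.three, hf.rest, hf.bal, hf.col.symm,
    hf.dense⟩

lemma F2m.symm (hm : F2m G U h p q Y κ) : F2m G U h q p Y κ :=
  ⟨hm.gmin, f2c_symm hm.f, fun Y' κ' h' => hm.min Y' κ' (f2c_symm h')⟩

lemma F2m.pq (hm : F2m G U h p q Y κ) : p ≠ q := fun hh => hm.f.col (hh ▸ rfl)

lemma F2m.preal [Finite V] (hm : F2m G U h p q Y κ) : 3 ≤ (G.neighborSet p).ncard :=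
  gmin_hand_real hm.gmin hm.f.hU hm.f.hand

lemma F2m.qreal [Finite V] (hm : F2m G U h p q Y κ) : 3 ≤ (G.neighborSet q).ncard :=
  hm.symm.preal

/-- The case `y = p`: `Y \ {p}` is not dense. -/
lemma F2m.del_p [Finite V] (hm : F2m G U h p q Y κ) {s : V} (hs : s ∈ Nb (delV G h) Y)
    (huniq : ∀ x ∈ Y, G.Adj x s → x = p) :
    fden (delV G h) (Y \ {p}) ≤ beta κ (Nb (delV G h) (Y \ {p})) := by
  classical
  have hf := hm.f
  have hpq := hm.pq
  have hhq := hf.hand.hq
  set Y0 : Set V := Y \ {p} with hY0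
  have hY0h : h ∉ Y0 := fun hh => hf.hY hh.1
  have hqY0 : q ∈ Y0 := ⟨hf.qY, fun hh => hpq (Set.mem_singleton_iff.1 hh).symm⟩
  have hpY0 : p ∉ Y0 := fun hh => hh.2 rfl
  have hY0U : Y0 ⊆ U := Set.sdiff_subset.trans hf.YU
  have hb0 : PB (delV G h) κ Y0 := hf.bal.mono Set.sdiff_subset
  have hb : PB G (Function.update κ h (κ q + 1)) Y0 := delV_PB_one hf.hand.symm hY0h hpY0 hb0
  have hNh : h ∈ Nb G Y0 := (hf.hand.mem_Nb hY0h).2 (Or.inr hqY0)
  have hNeq : Nb (delV G h) Y0 = Nb G Y0 \ {h} := delV_Nb hY0h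
  have hcard : (Nb (delV G h) Y0).ncard + 1 = (Nb G Y0).ncard := by
    rw [hNeq]
    exact Set.ncard_sdiff_singleton_add_one hNh (Set.toFinite _)
  have h3 : 3 ≤ (Nb G Y0).ncard := by
    by_cases h2 : 2 ≤ Y0.ncard
    · exact gmin_three_le hm.gmin hY0U hb h2
    · have hpos : 0 < Y0.ncard := (Set.ncard_pos (Set.toFinite _)).2 ⟨q, hqY0⟩
      obtain ⟨z, hz⟩ := Set.ncard_eq_one.1 (by omega : Y0.ncard = 1)
      have hqz : q = z := by rw [hz] at hqY0; exact hqY0
      have hN : G.neighborSet q ⊆ Nb G Y0 := by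
        intro v hv
        refine ⟨?_, q, hqY0, hv⟩
        rw [hz, ← hqz]
        intro hh
        rw [Set.mem_singleton_iff] at hh
        exact hv.ne hh.symm
      exact hm.qreal.trans (Set.ncard_le_ncard hN (Set.toFinite _))
  have h4 : (Nb G Y0).ncard ≤ 4 := by
    have hsub : Nb (delV G h) Y0 ⊆ insert p (Nb (delV G h) Y \ {s}) := by
      rintro v ⟨hv, x, hx, hxv⟩
      by_cases hvp : v = p
      · exact Or.inl hvp
      · refine Or.inr ⟨⟨fun hh => hv ⟨hh, hvp⟩, x, hx.1, hxv⟩, ?_⟩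
        intro hvs
        rw [Set.mem_singleton_iff] at hvs
        exact hx.2 (huniq x hx.1 (hvs ▸ hxv.1))
    have h5 := Set.ncard_le_ncard hsub (Set.toFinite _)
    have h6 := Set.ncard_insert_le p (Nb (delV G h) Y \ {s})
    have h6' : (Nb (delV G h) Y \ {s}).ncard + 1 = (Nb (delV G h) Y).ncard :=
      Set.ncard_sdiff_singleton_add_one hs (Set.toFinite _)
    have h7 := hf.three
    omega
  have h8 := gmin_P12 hm.gmin hY0U hb h3 h4
  have h9 := delV_fden hf.hand hY0h
  have h10 : (({p, q} \ Y0 : Set V).ncard : ℤ) = 1 := by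
    have : ({p, q} \ Y0 : Set V) = {p} := by
      ext x
      simp only [Set.mem_sdiff, Set.mem_insert_iff, Set.mem_singleton_iff]
      constructor
      · rintro ⟨h1 | h1, h2⟩
        · exact h1
        · exact absurd (h1 ▸ hqY0) h2
      · intro h1
        exact ⟨Or.inl h1, fun hh => hpY0 (h1 ▸ hh)⟩
    rw [this, Set.ncard_singleton]
    rfl
  have hNins : Nb G Y0 = insert h (Nb (delV G h) Y0) := by
    rw [hNeq, Set.insert_sdiff_singleton, Set.insert_eq_of_mem hNh]
  have h11 : beta (Function.update κ h (κ q + 1)) (Nb G Y0) ≤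
      beta κ (Nb (delV G h) Y0) + 1 := by
    have hc' : ((Nb G Y0).ncard : ℤ) = ((Nb (delV G h) Y0).ncard : ℤ) + 1 := by
      rw [← hcard]; push_cast; ring
    by_cases hmono : Mono (Function.update κ h (κ q + 1)) (Nb G Y0)
    · have hmono' : Mono κ (Nb (delV G h) Y0) := by
        intro a ha b hb'
        have ha1 : a ∈ Nb G Y0 := by rw [hNins]; exact Or.inr ha
        have hb1 : b ∈ Nb G Y0 := by rw [hNins]; exact Or.inr hb'
        have ha2 : a ≠ h := fun hh => by rw [hNeq] at ha; exact ha.2 hh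
        have hb2 : b ≠ h := fun hh => by rw [hNeq] at hb'; exact hb'.2 hh
        have := hmono a ha1 b hb1
        rwa [Function.update_of_ne ha2, Function.update_of_ne hb2] at this
      rw [beta_of_mono hmono, beta_of_mono hmono', hc']
      linarith
    · rw [beta_of_not_mono hmono, hc']
      unfold beta
      split_ifs <;> linarith
  linarith

/-- Removing a vertex `y` of a smallest set. -/
lemma F2m.del_y [Finite V] (hm : F2m G U h p q Y κ) {s y : V} (hs : s ∈ Nb (delV G h) Y)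
    (hy : y ∈ Y) (huniq : ∀ x ∈ Y, G.Adj x s → x = y) :
    fden (delV G h) (Y \ {y}) ≤ beta κ (Nb (delV G h) (Y \ {y})) := by
  classical
  have hf := hm.f
  by_cases hyp : y = p
  · rw [hyp]; exact hm.del_p hs (fun x hx hxs => (huniq x hx hxs).trans hyp)
  by_cases hyq : y = q
  · rw [hyq]; exact hm.symm.del_p hs (fun x hx hxs => (huniq x hx hxs).trans hyq)
  have hpq := hm.pq
  set Y0 : Set V := Y \ {y} with hY0
  have hpY0 : p ∈ Y0 := ⟨hf.pY, fun hh => hyp (Set.mem_singleton_iff.1 hh).symm⟩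
  have hqY0 : q ∈ Y0 := ⟨hf.qY, fun hh => hyq (Set.mem_singleton_iff.1 hh).symm⟩
  have hY0h : h ∉ Y0 := fun hh => hf.hY hh.1
  have hY0U : Y0 ⊆ U := Set.sdiff_subset.trans hf.YU
  have hb0 : PB (delV G h) κ Y0 := hf.bal.mono Set.sdiff_subset
  have hsY : s ∉ Y := hs.1
  have hsh : s ≠ h := by
    obtain ⟨-, x, -, h1⟩ := hs
    exact h1.2.2
  have hsU : s ∈ U := by
    obtain ⟨-, x, -, h1⟩ := hs
    exact hm.gmin.ex.edge_mem s x h1.1.symm
  have hsub : Nb (delV G h) Y0 ⊆ insert y (Nb (delV G h) Y \ {s}) := by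
    rintro v ⟨hv, x, hx, hxv⟩
    by_cases hvy : v = y
    · exact Or.inl hvy
    · refine Or.inr ⟨⟨fun hh => hv ⟨hh, hvy⟩, x, hx.1, hxv⟩, ?_⟩
      intro hvs
      rw [Set.mem_singleton_iff] at hvs
      exact hx.2 (huniq x hx.1 (hvs ▸ hxv.1))
  have hsN0 : s ∉ Nb (delV G h) Y0 := by
    intro hh
    rcases hsub hh with h1 | h1
    · exact hsY (h1 ▸ hy)
    · exact h1.2 rfl
  have hsr : s ∈ (U \ {h}) \ (Y0 ∪ Nb (delV G h) Y0) :=
    ⟨⟨hsU, hsh⟩, fun hh => hh.elim (fun h1 => hsY h1.1) hsN0⟩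
  have hc : Y0.ncard + 1 = Y.ncard := Set.ncard_sdiff_singleton_add_one hy (Set.toFinite _)
  by_cases h3 : (Nb (delV G h) Y0).ncard = 3
  · by_contra hlt
    push Not at hlt
    have h4 := hm.min Y0 κ ⟨hf.hand, hf.hU, hY0U, hY0h, hpY0, hqY0, h3, ⟨s, hsr⟩, hb0, hf.col, hlt⟩
    omega
  · exfalso
    have hR : (Nb (delV G h) Y \ {s}).ncard + 1 = (Nb (delV G h) Y).ncard :=
      Set.ncard_sdiff_singleton_add_one hs (Set.toFinite _)
    have h3' := hf.three
    have h4 := Set.ncard_le_ncard hsub (Set.toFinite _)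
    have h5 := Set.ncard_insert_le y (Nb (delV G h) Y \ {s})
    have h6 : (Nb (delV G h) Y0).ncard ≤ 2 := by omega
    -- the set `Y0 ∪ {h}` in `G`
    have hN : Nb G (insert h Y0) ⊆ Nb (delV G h) Y0 := by
      rintro v ⟨hv, x, hx, hxv⟩
      have hvh : v ≠ h := fun hh => hv (Or.inl hh)
      have hvY0 : v ∉ Y0 := fun hh => hv (Or.inr hh)
      rcases hx with rfl | hx
      · exfalso
        rcases hf.hand.adj.1 hxv with h1 | h1
        · exact hvY0 (h1 ▸ hpY0)
        · exact hvY0 (h1 ▸ hqY0)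
      · exact ⟨hvY0, x, hx, hxv, fun hh => hY0h (hh ▸ hx), hvh⟩
    have h7 : 2 ≤ (insert h Y0).ncard := by
      rw [Set.ncard_insert_of_notMem hY0h (Set.toFinite _)]
      have := (Set.ncard_pos (Set.toFinite Y0)).2 ⟨p, hpY0⟩
      omega
    have h8 := hm.gmin.ex.conn (insert h Y0) (by
      rintro x (rfl | hx)
      · exact hf.hU
      · exact hY0U hx) h7 ((Set.ncard_le_ncard hN (Set.toFinite _)).trans h6)
    obtain ⟨r, ⟨hrU, hrh⟩, hr⟩ := hf.rest
    have hrY : r ∉ Y := fun hh => hr (Or.inl hh)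
    have hrN : r ∉ Nb (delV G h) Y := fun hh => hr (Or.inr hh)
    have hne : r ≠ s := fun hh => hrN (hh ▸ hs)
    have h9 : ({r, s} : Set V) ⊆ U \ (insert h Y0 ∪ Nb G (insert h Y0)) := by
      rintro z (rfl | hz)
      · refine ⟨hrU, ?_⟩
        rintro ((h1 | h1) | h1)
        · exact hrh h1
        · exact hrY h1.1
        · rcases hsub (hN h1) with h2 | h2
          · exact hrY (h2 ▸ hy)
          · exact hrN h2.1
      · rw [Set.mem_singleton_iff] at hz
        rw [hz]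
        refine ⟨hsU, ?_⟩
        rintro ((h1 | h1) | h1)
        · exact hsh h1
        · exact hsY h1.1
        · exact hsN0 (hN h1)
    have h10 := Set.ncard_le_ncard h9 (Set.toFinite _)
    rw [Set.ncard_pair hne] at h10
    omega

/-- Every boundary vertex has two neighbours in `Y`. (As `MinDense3.two_nbrs`; the unique
neighbour `y` may be `p` or `q`: then `gmin_P12` for `Y \ {y}`, which has `h` as a neighbour.) -/
theorem F2m.two [Finite V] (hm : F2m G U h p q Y κ) {s : V} (hs : s ∈ Nb (delV G h) Y) :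
    2 ≤ (G.neighborSet s ∩ Y).ncard := by
  classical
  by_contra hlt
  push Not at hlt
  have hsN := hs
  obtain ⟨hsY, y, hy, hys⟩ := hs
  have hf := hm.f
  -- the unique neighbour
  have huniq : ∀ x ∈ Y, G.Adj x s → x = y := by
    intro x hx hxs
    by_contra hne
    have h1 : ({x, y} : Set V) ⊆ G.neighborSet s ∩ Y := by
      rintro z (rfl | hz)
      · exact ⟨hxs.symm, hx⟩
      · rw [Set.mem_singleton_iff] at hz
        rw [hz]; exact ⟨hys.1.symm, hy⟩
    have h2 := Set.ncard_le_ncard h1 (Set.toFinite _)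
    rw [Set.ncard_pair hne] at h2
    omega
  have hf0 := hm.del_y hsN hy huniq
  set R : Set V := Nb (delV G h) Y \ {s} with hR
  have hR2 : R.ncard = 2 := by
    have h1 : R.ncard + 1 = (Nb (delV G h) Y).ncard :=
      Set.ncard_sdiff_singleton_add_one hsN (Set.toFinite _)
    have h2 := hf.three
    omega
  have hsR : s ∉ R := fun hh => hh.2 rfl
  have hyR : y ∉ R := fun hh => hh.1.1 hy
  have hCR : Nb (delV G h) Y = insert s R := by
    rw [hR, Set.insert_sdiff_singleton, Set.insert_eq_of_mem hsN]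
  set Y0 : Set V := Y \ {y} with hY0
  have hYn : Y = insert y Y0 := by
    rw [hY0, Set.insert_sdiff_singleton, Set.insert_eq_of_mem hy]
  have hN0 : Nb (delV G h) Y0 ⊆ insert y R := by
    rintro v ⟨hv, x, hx, hxv⟩
    by_cases hvy : v = y
    · exact Or.inl hvy
    · have hvY : v ∉ Y := fun hh => hv ⟨hh, hvy⟩
      right
      refine ⟨⟨hvY, x, hx.1, hxv⟩, ?_⟩
      intro hvs
      rw [Set.mem_singleton_iff] at hvs
      exact hx.2 (huniq x hx.1 (hvs ▸ hxv.1))
  have h15 := beta_mono (κ := κ) hN0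
  have h16 := beta_swap (κ := κ) hR2 hsR hyR
  have h17 : fden (delV G h) Y =
      fden (delV G h) Y0 + (((delV G h).neighborSet y \ Y0).ncard : ℤ) - 2 := by
    conv_lhs => rw [hYn]
    exact fden_insert (delV G h) (fun hh => hh.2 rfl)
  have h18 : ((delV G h).neighborSet y \ Y0).ncard ≤
      ({w | w ∈ insert s R ∧ κ y + κ w = 1}).ncard := by
    apply Set.ncard_le_ncard _ (Set.toFinite _)
    rintro w ⟨g1, g2⟩
    have g1' : (delV G h).Adj y w := g1
    refine ⟨?_, ?_⟩
    · rw [← hCR]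
      refine ⟨?_, y, hy, g1'⟩
      intro hw
      exact g2 ⟨hw, fun hh => g1'.ne (Set.mem_singleton_iff.1 hh).symm⟩
    · rw [add_eq_one_iff]
      exact hf.bal y w hy g1'
  have h19 : (((delV G h).neighborSet y \ Y0).ncard : ℤ) ≤
      (({w | w ∈ insert s R ∧ κ y + κ w = 1}).ncard : ℤ) := by exact_mod_cast h18
  have h20 := hf.dense
  rw [hCR] at h20
  linarith

/-- The boundary vertices have degree at least three. (Otherwise both neighbours of `s` are in `Y`,
`Y ∪ {s, h}` has two neighbours in `G`, the rest is one vertex `r` and `gmin_ind3` fails for `p` and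
a vertex of the boundary.) -/
theorem F2m.real [Finite V] (hm : F2m G U h p q Y κ) {s : V} (hs : s ∈ Nb (delV G h) Y) :
    3 ≤ (G.neighborSet s).ncard := by
  classical
  by_contra hlt
  push Not at hlt
  have hf := hm.f
  have h2 := hm.two hs
  have hsY : s ∉ Y := hs.1
  have hsh : s ≠ h := by
    obtain ⟨-, x, -, h1⟩ := hs
    exact h1.2.2
  have hsU : s ∈ U := by
    obtain ⟨-, x, -, h1⟩ := hs
    exact hm.gmin.ex.edge_mem s x h1.1.symm
  have hNs : ∀ v, G.Adj s v → v ∈ Y := by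
    have h3 : G.neighborSet s ∩ Y = G.neighborSet s :=
      Set.eq_of_subset_of_ncard_le Set.inter_subset_left (by omega) (Set.toFinite _)
    intro v hv
    have : v ∈ G.neighborSet s ∩ Y := by rw [h3]; exact hv
    exact this.2
  have hRc : (Nb (delV G h) Y \ {s}).ncard + 1 = (Nb (delV G h) Y).ncard :=
    Set.ncard_sdiff_singleton_add_one hs (Set.toFinite _)
  have h3' := hf.three
  obtain ⟨n2, n3, hn23, hR⟩ := Set.ncard_eq_two.1
    (by omega : (Nb (delV G h) Y \ {s}).ncard = 2)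
  have hn2 : n2 ∈ Nb (delV G h) Y \ {s} := by rw [hR]; exact Or.inl rfl
  have hn3 : n3 ∈ Nb (delV G h) Y \ {s} := by rw [hR]; exact Or.inr rfl
  have hcls : ∀ v, v ∈ Nb (delV G h) Y → v = s ∨ v = n2 ∨ v = n3 := by
    intro v hv
    by_cases hvs : v = s
    · exact Or.inl hvs
    · have : v ∈ Nb (delV G h) Y \ {s} := ⟨hv, hvs⟩
      rw [hR] at this
      exact Or.inr this
  set W : Set V := insert s (insert h Y) with hW
  have hsW : s ∈ W := Or.inl rfl
  have hhW : h ∈ W := Or.inr (Or.inl rfl)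
  have hYW : ∀ x ∈ Y, x ∈ W := fun x hx => Or.inr (Or.inr hx)
  have hWU : W ⊆ U := by
    rintro x (rfl | rfl | hx)
    · exact hsU
    · exact hf.hU
    · exact hf.YU hx
  have hNW : Nb G W ⊆ {n2, n3} := by
    rintro v ⟨hv, x, hx, hxv⟩
    have hvs : v ≠ s := fun hh => hv (hh ▸ hsW)
    have hvh : v ≠ h := fun hh => hv (hh ▸ hhW)
    have hvY : v ∉ Y := fun hh => hv (hYW v hh)
    rcases hx with rfl | rfl | hx
    · exact absurd (hNs v hxv) hvY
    · exfalso
      rcases hf.hand.adj.1 hxv with h1 | h1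
      · exact hvY (h1 ▸ hf.pY)
      · exact hvY (h1 ▸ hf.qY)
    · rcases hcls v ⟨hvY, x, hx, hxv, fun hh => hf.hY (hh ▸ hx), hvh⟩ with h1 | h1
      · exact absurd h1 hvs
      · exact h1
  have hW2 : 2 ≤ W.ncard := by
    have h4 : ({s, h} : Set V) ⊆ W := by
      rintro z (rfl | hz)
      · exact hsW
      · rw [Set.mem_singleton_iff] at hz; rw [hz]; exact hhW
    have h5 := Set.ncard_le_ncard h4 (Set.toFinite _)
    rw [Set.ncard_pair hsh] at h5
    exact h5
  have hle := hm.gmin.ex.conn W hWU hW2 (by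
    have h4 := Set.ncard_le_ncard hNW (Set.toFinite _)
    rw [Set.ncard_pair hn23] at h4
    exact h4)
  obtain ⟨r, ⟨hrU, hrh'⟩, hr⟩ := hf.rest
  have hrh : r ≠ h := fun hh => hrh' hh
  have hrY : r ∉ Y := fun hh => hr (Or.inl hh)
  have hrN : r ∉ Nb (delV G h) Y := fun hh => hr (Or.inr hh)
  have hrs : r ≠ s := fun hh => hrN (hh ▸ hs)
  have hrn2 : r ≠ n2 := fun hh => hrN (hh ▸ hn2.1)
  have hrn3 : r ≠ n3 := fun hh => hrN (hh ▸ hn3.1)
  have hrW : r ∈ U \ (W ∪ Nb G W) := by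
    refine ⟨hrU, ?_⟩
    rintro ((h1 | h1 | h1) | h1)
    · exact hrs h1
    · exact hrh h1
    · exact hrY h1
    · rcases hNW h1 with h4 | h4
      · exact hrn2 h4
      · exact hrn3 h4
  have hcov : ∀ v ∈ U, v ∈ Y ∨ v = s ∨ v = h ∨ v = n2 ∨ v = n3 ∨ v = r := by
    intro v hv
    by_contra hcon
    push Not at hcon
    obtain ⟨c1, c2, c3, c4, c5, c6⟩ := hcon
    have h4 : ({v, r} : Set V) ⊆ U \ (W ∪ Nb G W) := by
      rintro z (rfl | hz)
      · refine ⟨hv, ?_⟩
        rintro ((h1 | h1 | h1) | h1)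
        · exact c2 h1
        · exact c3 h1
        · exact c1 h1
        · rcases hNW h1 with h4 | h4
          · exact c4 h4
          · exact c5 h4
      · rw [Set.mem_singleton_iff] at hz; rw [hz]; exact hrW
    have h5 := Set.ncard_le_ncard h4 (Set.toFinite _)
    rw [Set.ncard_pair c6] at h5
    omega
  have hadd : ∀ a : ZMod 2, a ≠ a + 1 := by decide
  have hYr : ∀ x ∈ Y, ¬ G.Adj x r := by
    intro x hx hxr
    exact hrN ⟨hrY, x, hx, hxr, fun hh => hf.hY (hh ▸ hx), hrh⟩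
  have n3Y : n3 ∉ Y := hn3.1.1
  have n3h : n3 ≠ h := by
    obtain ⟨⟨-, x, -, h1⟩, -⟩ := hn3
    exact h1.2.2
  -- the colouring of `G - p - n2`
  set κ' : V → ZMod 2 := fun v => if v = h then κ q + 1 else if v = r then κ n3 + 1 else κ v
    with hκ'
  have e1 : κ' h = κ q + 1 := if_pos rfl
  have e2 : κ' r = κ n3 + 1 := by
    show (if r = h then κ q + 1 else if r = r then κ n3 + 1 else κ r) = _
    rw [if_neg hrh, if_pos rfl]
  have e3 : ∀ v, v ≠ h → v ≠ r → κ' v = κ v := fun v h1 h2 => by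
    show (if v = h then κ q + 1 else if v = r then κ n3 + 1 else κ v) = _
    rw [if_neg h1, if_neg h2]
  refine gmin_ind3 hm.gmin p n2 κ' ?_
  -- edges at `h`
  have a1 : ∀ w, w ≠ p → G.Adj h w → κ' h ≠ κ' w := by
    intro w hw1 hhw
    have hwq : w = q := by
      rcases hf.hand.adj.1 hhw with h1 | h1
      · exact absurd h1 hw1
      · exact h1
    have hqr : q ≠ r := fun hh => hrY (hh ▸ hf.qY)
    rw [hwq, e1, e3 q hf.hand.hq.ne' hqr]
    exact (hadd _).symm
  -- edges at `Y`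
  have a2 : ∀ v ∈ Y, ∀ w, w ≠ h → G.Adj v w → κ' v ≠ κ' w := by
    intro v hv w hwh hvw
    have hvh : v ≠ h := fun hh => hf.hY (hh ▸ hv)
    have hvr : v ≠ r := fun hh => hrY (hh ▸ hv)
    have hwr : w ≠ r := fun hh => hYr v hv (hh ▸ hvw)
    rw [e3 v hvh hvr, e3 w hwh hwr]
    exact hf.bal v w hv ⟨hvw, hvh, hwh⟩
  intro v w hv1 hv2 hw1 hw2 hvw
  by_cases hvh : v = h
  · rw [hvh] at hvw ⊢; exact a1 w hw1 hvw
  by_cases hwh : w = h
  · rw [hwh] at hvw ⊢; exact (a1 v hv1 hvw.symm).symm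
  by_cases hvY : v ∈ Y
  · exact a2 v hvY w hwh hvw
  by_cases hwY : w ∈ Y
  · exact (a2 w hwY v hvh hvw.symm).symm
  have hvs : v ≠ s := fun hh => hwY (hNs w (hh ▸ hvw))
  have hws : w ≠ s := fun hh => hvY (hNs v (hh ▸ hvw.symm))
  have hv' : v = n3 ∨ v = r := by
    rcases hcov v (hm.gmin.ex.edge_mem v w hvw) with h1 | h1 | h1 | h1 | h1 | h1
    · exact absurd h1 hvY
    · exact absurd h1 hvs
    · exact absurd h1 hvh
    · exact absurd h1 hv2
    · exact Or.inl h1
    · exact Or.inr h1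
  have hw' : w = n3 ∨ w = r := by
    rcases hcov w (hm.gmin.ex.edge_mem w v hvw.symm) with h1 | h1 | h1 | h1 | h1 | h1
    · exact absurd h1 hwY
    · exact absurd h1 hws
    · exact absurd h1 hwh
    · exact absurd h1 hw2
    · exact Or.inl h1
    · exact Or.inr h1
  rcases hv' with h1 | h1 <;> rcases hw' with h4 | h4
  · exact absurd (h1.trans h4.symm) hvw.ne
  · rw [h1, h4, e2, e3 n3 n3h hrn3.symm]; exact hadd _
  · rw [h1, h4, e2, e3 n3 n3h hrn3.symm]; exact (hadd _).symm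
  · exact absurd (h1.trans h4.symm) hvw.ne

/-- No vertex of degree two in `Y` has both neighbours in the boundary (delete it). -/
theorem F2m.nolink [Finite V] (hm : F2m G U h p q Y κ) {m : V} (hmY : m ∈ Y)
    (h2 : (G.neighborSet m).ncard = 2) : ¬ (G.neighborSet m ⊆ Nb (delV G h) Y) := by
  classical
  intro hN
  have hf := hm.f
  have hmp : m ≠ p := fun hh => by have := hm.preal; rw [← hh] at this; omega
  have hmq : m ≠ q := fun hh => by have := hm.qreal; rw [← hh] at this; omega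
  set Y0 : Set V := Y \ {m} with hY0
  have hYn : Y = insert m Y0 := by
    rw [hY0, Set.insert_sdiff_singleton, Set.insert_eq_of_mem hmY]
  have hc : Y0.ncard + 1 = Y.ncard := Set.ncard_sdiff_singleton_add_one hmY (Set.toFinite _)
  have hNeq : Nb (delV G h) Y0 = Nb (delV G h) Y := by
    ext v
    constructor
    · rintro ⟨hv, x, hx, hxv⟩
      have hvm : v ≠ m := by
        rintro rfl
        exact (hN hxv.1.symm).1 hx.1
      exact ⟨fun hh => hv ⟨hh, hvm⟩, x, hx.1, hxv⟩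
    · intro hv
      have h3 := hm.two hv
      obtain ⟨x, hx, hxm⟩ := exists_ne_of_two h3 m
      have hvh : v ≠ h := by
        obtain ⟨-, z, -, h1⟩ := hv
        exact h1.2.2
      exact ⟨fun hh => hv.1 hh.1, x, ⟨hx.2, hxm⟩, SimpleGraph.Adj.symm hx.1,
        fun hh => hf.hY (hh ▸ hx.2), hvh⟩
  have hf' : fden (delV G h) Y ≤ fden (delV G h) Y0 := by
    have h17 : fden (delV G h) Y =
        fden (delV G h) Y0 + (((delV G h).neighborSet m \ Y0).ncard : ℤ) - 2 := by
      conv_lhs => rw [hYn]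
      exact fden_insert (delV G h) (fun hh => hh.2 rfl)
    have h18 : ((delV G h).neighborSet m \ Y0).ncard ≤ 2 := by
      refine (Set.ncard_le_ncard ?_ (Set.toFinite _)).trans h2.le
      rintro x ⟨hx, -⟩
      exact hx.1
    have h19 : (((delV G h).neighborSet m \ Y0).ncard : ℤ) ≤ 2 := by exact_mod_cast h18
    linarith
  have hκ0 : PB (delV G h) κ Y0 := hf.bal.mono Set.sdiff_subset
  have h4 := hm.min Y0 κ ⟨hf.hand, hf.hU, Set.sdiff_subset.trans hf.YU, fun hh => hf.hY hh.1,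
    ⟨hf.pY, fun hh => hmp hh.symm⟩, ⟨hf.qY, fun hh => hmq hh.symm⟩, by rw [hNeq]; exact hf.three, by
      rw [hNeq]
      obtain ⟨r, hrU, hr⟩ := hf.rest
      exact ⟨r, hrU, fun hh => hh.elim (fun h5 => hr (Or.inl h5.1)) (fun h5 => hr (Or.inr h5))⟩,
    hκ0, hf.col, by rw [hNeq]; exact lt_of_lt_of_le hf.dense hf'⟩
  omega

/-- The situation `Sq`. -/
theorem F2m.exists_sq [Finite V] (hm : F2m G U h p q Y κ) (ht : HT G) :
    ∃ n1 n2 n3, Sq G U Y κ h p q n1 n2 n3 := by
  classical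
  have hf := hm.f
  obtain ⟨n1, n2, n3, h12, h13, h23, hN⟩ := Set.ncard_eq_three.1 hf.three
  have m1 : n1 ∈ Nb (delV G h) Y := by rw [hN]; exact Or.inl rfl
  have m2 : n2 ∈ Nb (delV G h) Y := by rw [hN]; exact Or.inr (Or.inl rfl)
  have m3 : n3 ∈ Nb (delV G h) Y := by rw [hN]; exact Or.inr (Or.inr rfl)
  have hd : fden G Y = fden (delV G h) Y + 2 := by
    have h1 := delV_fden hf.hand hf.hY
    have h2 : (({p, q} \ Y : Set V).ncard : ℤ) = 0 := by
      have : ({p, q} \ Y : Set V) = ∅ := by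
        ext x
        simp only [Set.mem_sdiff, Set.mem_insert_iff, Set.mem_singleton_iff, Set.mem_empty_iff_false,
          iff_false, not_and, not_not]
        rintro (h1 | h1)
        · rw [h1]; exact hf.pY
        · rw [h1]; exact hf.qY
      rw [this, Set.ncard_empty]
      rfl
    linarith
  have hdense : beta κ {n1, n2, n3} + 3 ≤ fden G Y := by
    have h1 := hf.dense
    rw [hN] at h1
    rw [hd]
    linarith [Int.add_one_le_iff.2 h1]
  have hbeta : 0 ≤ beta κ {n1, n2, n3} := by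
    have h3 : (({n1, n2, n3} : Set V).ncard : ℤ) = 3 := by
      rw [← hN, hf.three]; rfl
    unfold beta
    rw [h3]
    split_ifs <;> norm_num
  have hnh : ∀ n, n ∈ Nb (delV G h) Y → h ≠ n := by
    rintro n ⟨-, x, -, h1⟩
    exact h1.2.2.symm
  have ha : ∀ n, n ∈ Nb (delV G h) Y → ∃ y ∈ Y, G.Adj y n := by
    rintro n ⟨-, x, hx, h1⟩
    exact ⟨x, hx, h1.1⟩
  refine ⟨n1, n2, n3, ⟨?_, ht, hdense, hm.two m1, hm.two m2, hm.two m3, hm.real m1, hm.real m2,
    hm.real m3, ?_⟩⟩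
  · exact {
      hM := hm.gmin
      YU := hf.YU
      hY := hf.hY
      adj_h := fun v => hf.hand.adj
      pY := hf.pY
      qY := hf.qY
      pq := hf.col
      bal := fun u hu v hvh huv => hf.bal u v hu ⟨huv, fun hh => hf.hY (hh ▸ hu), hvh⟩
      nb := by
        intro u hu v huv
        by_cases hv : v ∈ Y
        · exact Or.inl hv
        by_cases hvh : v = h
        · exact Or.inr (Or.inl hvh)
        · have : v ∈ Nb (delV G h) Y := ⟨hv, u, hu, huv, fun hh => hf.hY (hh ▸ hu), hvh⟩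
          rw [hN] at this
          exact Or.inr (Or.inr this)
      n1Y := m1.1
      n2Y := m2.1
      n3Y := m3.1
      hn1 := hnh n1 m1
      hn2 := hnh n2 m2
      hn3 := hnh n3 m3
      n12 := h12
      n13 := h13
      n23 := h23
      a1 := ha n1 m1
      a2 := ha n2 m2
      a3 := ha n3 m3
      dens := by linarith }
  · intro m hmY h2 hs
    refine hm.nolink hmY h2 ?_
    rw [hN]
    exact hs

end

end Pool.Agent.Helper94.F2
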