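import Pool.Agent.Helper94.F2.StubA

/-!
# No consistent triangle contains a vertex of degree two
-/

set_option autoImplicit false

namespace Pool.Agent.Helper94.F2

open SimpleGraph Pool.Agent.Helper57.TOK Pool.Agent.Helper57.TD Pool.Agent.Helper57.TOP
  Pool.Agent.Helper82.TK Pool.Agent.Helper41.F2

variable {V : Type*}

/-- Take the smallest dense set `Y'` for `m`: `x, y ∈ Y'` have different colours; a neighbour `m1`
of `x` of degree two is in `Y'` or has both neighbours in `Y'` (`F2m.two`). -/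
theorem ht_of_all [Finite V] {G : SimpleGraph V} {U : Set V} (hM : GMin G U)
    (hall : ∀ h p q, h ∈ U → Hand G h p q → ∃ Y κ, F2c G U h p q Y κ) : HT G := by
  intro m x y z hh hzm hzx hzy
  have hmU : m ∈ U := hM.ex.edge_mem m x hh.hp
  obtain ⟨Y, κ, hm⟩ := exists_F2m hM (hall m x y hmU hh)
  have hx := hm.f.pY
  have hy := hm.f.qY
  have hxm : x ≠ m := hh.hp.ne'
  have hym : y ≠ m := hh.hq.ne'
  constructor
  · rintro ⟨h1, h2⟩
    have e1 := hm.f.bal x z hx ⟨h1, hxm, hzm⟩
    have e2 := hm.f.bal y z hy ⟨h2, hym, hzm⟩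
    exact hm.f.col (eq_of_ne_of_ne e1 e2)
  · rintro ⟨m1, m2, h1, h2⟩
    have key : ∀ {x m1 : V}, x ∈ Y → x ≠ m → Hand G m1 x z → m1 ≠ m → κ x = κ z := by
      intro x m1 hx hxm h1 hne
      have e1 := hm.f.bal x m1 hx ⟨h1.hp.symm, hxm, hne⟩
      by_cases hY : m1 ∈ Y
      · have e2 := hm.f.bal m1 z hY ⟨h1.hq, hne, hzm⟩
        exact eq_of_ne_of_ne e1 e2.symm
      · have hN : m1 ∈ Nb (delV G m) Y := ⟨hY, x, hx, h1.hp.symm, hxm, hne⟩
        have h3 := hm.two hN
        have h4 : (G.neighborSet m1 ∩ Y) = {x, z} := by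
          apply Set.eq_of_subset_of_ncard_le
          · rw [← h1.nb]; exact Set.inter_subset_left
          · rw [Set.ncard_pair h1.ne]; exact h3
          · exact Set.toFinite _
        have hzY : z ∈ Y := by
          have : z ∈ G.neighborSet m1 ∩ Y := by rw [h4]; exact Or.inr rfl
          exact this.2
        have e2 := hm.f.bal z m1 hzY ⟨h1.hq.symm, hzm, hne⟩
        exact eq_of_ne_of_ne e1 e2
    have hne1 : m1 ≠ m := by
      rintro rfl
      have : z ∈ ({x, y} : Set V) := by rw [← hh.nb]; exact h1.hq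
      rcases this with h3 | h3
      · exact hzx h3
      · exact hzy h3
    have hne2 : m2 ≠ m := by
      rintro rfl
      have : z ∈ ({x, y} : Set V) := by rw [← hh.nb]; exact h2.hq
      rcases this with h3 | h3
      · exact hzx h3
      · exact hzy h3
    exact hm.f.col ((key hx hxm h1 hne1).trans (key hy hym h2 hne2).symm)

end Pool.Agent.Helper94.F2
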