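import Pool.Agent.Helper94.F2.Defs
import Pool.Agent.Helper82.TK.BalDens

/-!
# StubC: dictionary between sets of the society and sets of `G`
-/

set_option autoImplicit false

namespace Pool.Agent.Helper94.F2

open SimpleGraph Pool.Agent.Helper57.TOK Pool.Agent.Helper57.TD Pool.Agent.Helper57.TOP
  Pool.Agent.Helper82.TK Pool.Agent.Helper41.F2

variable {V : Type*} {G : SimpleGraph V} {U Y : Set V} {κ : V → ZMod 2} {h p q n1 n2 n3 : V}

lemma Hand.deg2 {m x y : V} (hm : Hand G m x y) : (G.neighborSet m).ncard = 2 := by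
  rw [hm.nb, Set.ncard_pair hm.ne]

lemma Sq.A_sub {A : Set V} (hA : A ⊆ SS G Y p n3) (h3 : n3 ∉ A) : A ⊆ Y := by
  intro a ha
  rcases hA ha with h1 | h1
  · exact absurd (h1 ▸ ha) h3
  · exact h1.1

lemma Sq.A_real {A : Set V} (hA : A ⊆ SS G Y p n3) (h3 : n3 ∉ A) {a : V} (ha : a ∈ A) :
    3 ≤ (G.neighborSet a).ncard ∧ a ≠ p := by
  rcases hA ha with h1 | h1
  · exact absurd (h1 ▸ ha) h3
  · exact ⟨h1.2.2, h1.2.1⟩

/-- A neighbour of a vertex of degree two is real. -/
lemma Sq.hand_real [Finite V] (F : Sq G U Y κ h p q n1 n2 n3) {m v : V}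
    (hd : (G.neighborSet m).ncard = 2) (hv : G.Adj m v) : 3 ≤ (G.neighborSet v).ncard := by
  obtain ⟨x, y, hxy⟩ := exists_hand hd
  have hmU : m ∈ U := F.hM.ex.edge_mem m v hv
  rcases hxy.adj.1 hv with h1 | h1
  · rw [h1]; exact gmin_hand_real F.hM hmU hxy
  · rw [h1]; exact gmin_hand_real F.hM hmU hxy.symm

/-- A vertex of degree two different from `h` is not adjacent to `h`. -/
lemma Sq.hand_ne_h [Finite V] (F : Sq G U Y κ h p q n1 n2 n3) {m v : V}
    (hd : (G.neighborSet m).ncard = 2) (hv : G.Adj m v) : v ≠ h := by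
  intro h1
  have h2 := F.hand_real hd hv
  rw [h1, F.hdeg] at h2
  omega

/-- `cl G h A ⊆ Y` (vertices of degree two at `A` are in `Y` by `Sq.handY`). -/
theorem Sq.cl_sub [Finite V] (F : Sq G U Y κ h p q n1 n2 n3) {A : Set V}
    (hA : A ⊆ SS G Y p n3) (h3 : n3 ∉ A) : cl G h A ⊆ Y := by
  rintro m (h1 | ⟨h1, h2, a, ha, ham⟩)
  · exact Sq.A_sub hA h3 h1
  · exact F.handY (Sq.A_sub hA h3 ha) ham h1 h2

/-- `cl G h A` is balanced in `G`. -/
theorem Sq.cl_pb [Finite V] (F : Sq G U Y κ h p q n1 n2 n3) {A : Set V}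
    (hA : A ⊆ SS G Y p n3) (h3 : n3 ∉ A) : PB G (kh κ h p) (cl G h A) := by
  intro u v hu huv
  have huY := F.cl_sub hA h3 hu
  have huh : u ≠ h := fun h1 => F.hY (h1 ▸ huY)
  rw [kh_ne κ h p huh]
  by_cases hvh : v = h
  · subst hvh
    rw [kh_h]
    have h1 := (F.adj_h u).1 huv.symm
    rcases h1 with h1 | h1
    · exfalso
      rcases hu with h2 | ⟨-, h2, -⟩
      · exact (Sq.A_real hA h3 h2).2 h1
      · have h4 := F.preal
        rw [h1] at h2
        omega
    · rw [h1]; exact F.pq.symm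
  · rw [kh_ne κ h p hvh]
    exact F.bal u huY v hvh huv

/-- An even link of the society. -/
lemma Sq.even_link [Finite V] (F : Sq G U Y κ h p q n1 n2 n3) {m u v : V} (hm : Hand G m u v)
    (hmh : m ≠ h) (huv : u ∈ Y ∨ v ∈ Y) : kh κ h p u = kh κ h p v := by
  have hd := Hand.deg2 hm
  have hmY : m ∈ Y := by
    rcases huv with h1 | h1
    · exact F.handY h1 hm.hp.symm hmh hd
    · exact F.handY h1 hm.hq.symm hmh hd
  have hu := F.hand_ne_h hd hm.hp
  have hv := F.hand_ne_h hd hm.hq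
  rw [kh_ne κ h p hu, kh_ne κ h p hv]
  have e1 := F.bal m hmY u hu hm.hp
  have e2 := F.bal m hmY v hv hm.hq
  have key : ∀ a b d : ZMod 2, a ≠ b → a ≠ d → b = d := by decide
  exact key _ _ _ e1 e2

/-- Links at a vertex of `A` which do not lead to a vertex of degree two. -/
lemma Sq.zadj [Finite V] (F : Sq G U Y κ h p q n1 n2 n3) {A : Set V}
    (hA : A ⊆ SS G Y p n3) (h3 : n3 ∉ A) {u v : V} (hu : u ∈ A) (huv : G.Adj u v)
    (hv : v = h ∨ 3 ≤ (G.neighborSet v).ncard) : (ZG G Y h p n1 n2 n3).Adj u v :=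
  ⟨Or.inl huv, Or.inl (Sq.A_sub hA h3 hu), Or.inl (hA hu), Or.inl (hA hu),
    F.nbST (Sq.A_sub hA h3 hu) huv hv⟩

/-- Neighbours. -/
theorem Sq.cl_Nb [Finite V] (F : Sq G U Y κ h p q n1 n2 n3) {A : Set V}
    (hA : A ⊆ SS G Y p n3) (h3 : n3 ∉ A) : Nb G (cl G h A) = Nb (ZG G Y h p n1 n2 n3) A := by
  ext v
  constructor
  · rintro ⟨hv, u, hu, huv⟩
    have hvA : v ∉ A := fun h1 => hv (Or.inl h1)
    refine ⟨hvA, ?_⟩
    rcases hu with hu | ⟨huh, hd, a, ha, hau⟩
    · refine ⟨u, hu, F.zadj hA h3 hu huv ?_⟩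
      by_cases hvh : v = h
      · exact Or.inl hvh
      · right
        have h1 := F.hM.ex.deg2 v (F.hM.ex.edge_mem v u huv.symm)
        by_contra h2
        exact hv (Or.inr ⟨hvh, by omega, u, hu, huv⟩)
    · have hav : a ≠ v := fun h1 => hv (Or.inl (h1 ▸ ha))
      have hdu := F.hand_real hd huv
      have huY : u ∈ Y := F.handY (Sq.A_sub hA h3 ha) hau huh hd
      have hnb : G.neighborSet u = {a, v} := by
        symm
        refine Set.eq_of_subset_of_ncard_le ?_ ?_ (Set.toFinite _)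
        · rintro x (h1 | h1)
          · rw [h1]; exact hau.symm
          · rw [h1]; exact huv
        · rw [hd, Set.ncard_pair hav]
      exact ⟨a, ha, Or.inr ⟨u, huh, hav, hnb⟩, Or.inl (Sq.A_sub hA h3 ha), Or.inl (hA ha),
        Or.inl (hA ha), F.nbST huY huv (Or.inr hdu)⟩
  · rintro ⟨hvA, u, hu, huv, -, -, -, hvST⟩
    have hvr := F.real_ST hvST
    have hvc : v ∉ cl G h A := by
      rintro (h1 | ⟨h1, h2, -⟩)
      · exact hvA h1
      · rcases hvr with h4 | h4
        · exact h1 h4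
        · omega
    rcases huv with huv | ⟨m, hmh, hm⟩
    · exact ⟨hvc, u, Or.inl hu, huv⟩
    · exact ⟨hvc, m, Or.inr ⟨hmh, Hand.deg2 hm, u, hu, hm.hp.symm⟩, hm.hq⟩

/-- Edge numbers. -/
theorem Sq.cl_fden [Finite V] (F : Sq G U Y κ h p q n1 n2 n3) {A : Set V}
    (hA : A ⊆ SS G Y p n3) (h3 : n3 ∉ A) :
    fden G (cl G h A) = fO (ZG G Y h p n1 n2 n3) (kh κ h p) A := by
  classical
  set M : Set V := {m | m ≠ h ∧ (G.neighborSet m).ncard = 2 ∧ ∃ a ∈ A, G.Adj a m} with hM
  have hcl : cl G h A = A ∪ M := rfl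
  have hdisj : Disjoint A M := by
    rw [Set.disjoint_left]
    rintro x h1 ⟨-, h2, -⟩
    have := (Sq.A_real hA h3 h1).1
    omega
  have hM0 : fden G M = 0 := by
    apply le_antisymm
    · exact fden_le_zero_of_deg (fun a ha => by have := ha.2.1; omega)
    · apply fden_indep_nonneg
      · intro a ha b hb hab
        have h1 := F.hand_real ha.2.1 hab
        have h2 := hb.2.1
        omega
      · intro a ha
        have := ha.2.1
        omega
  have hE : EAt G (cl G h A) =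
      EAt G M ∪ EAt (oddG (ZG G Y h p n1 n2 n3) (kh κ h p)) A := by
    have key : ∀ u v, u ∈ A → G.Adj u v →
        s(u, v) ∈ EAt G M ∪ EAt (oddG (ZG G Y h p n1 n2 n3) (kh κ h p)) A := by
      intro u v hu huv
      by_cases hvM : v ∈ M
      · exact Or.inl (mem_EAt.2 ⟨huv, Or.inr hvM⟩)
      right
      rw [mem_EAt, oddG_adj]
      refine ⟨⟨F.zadj hA h3 hu huv ?_, ?_⟩, Or.inl hu⟩
      · by_cases hvh : v = h
        · exact Or.inl hvh
        · right
          have h1 := F.hM.ex.deg2 v (F.hM.ex.edge_mem v u huv.symm)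
          by_contra h2
          exact hvM ⟨hvh, by omega, u, hu, huv⟩
      · have h1 := F.cl_pb hA h3 u v (Or.inl hu) huv
        have key2 : ∀ a b : ZMod 2, a ≠ b → a + b = 1 := by decide
        exact key2 _ _ h1
    have key3 : ∀ u v, u ∈ A → (oddG (ZG G Y h p n1 n2 n3) (kh κ h p)).Adj u v →
        G.Adj u v := by
      intro u v hu huv
      rw [oddG_adj] at huv
      obtain ⟨⟨h1 | ⟨m, hmh, hm⟩, h2, -⟩, h4⟩ := huv
      · exact h1
      · exfalso
        rw [F.even_link hm hmh h2, CharTwo.add_self_eq_zero] at h4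
        exact zero_ne_one h4
    ext e
    induction e using Sym2.ind with
    | _ u v =>
      constructor
      · intro he
        rw [mem_EAt] at he
        obtain ⟨h1, h2⟩ := he
        rcases h2 with (h2 | h2) | (h2 | h2)
        · exact key u v h2 h1
        · exact Or.inl (mem_EAt.2 ⟨h1, Or.inl h2⟩)
        · have e1 : s(u, v) = s(v, u) := Sym2.eq_swap
          rw [e1]
          exact key v u h2 h1.symm
        · exact Or.inl (mem_EAt.2 ⟨h1, Or.inr h2⟩)
      · rintro (he | he)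
        · rw [mem_EAt] at he ⊢
          refine ⟨he.1, ?_⟩
          rcases he.2 with h2 | h2
          · exact Or.inl (Or.inr h2)
          · exact Or.inr (Or.inr h2)
        · rw [mem_EAt] at he ⊢
          rcases he.2 with h2 | h2
          · exact ⟨key3 u v h2 he.1, Or.inl (Or.inl h2)⟩
          · exact ⟨(key3 v u h2 he.1.symm).symm, Or.inr (Or.inl h2)⟩
  have hEd : Disjoint (EAt G M) (EAt (oddG (ZG G Y h p n1 n2 n3) (kh κ h p)) A) := by
    rw [Set.disjoint_left]
    intro e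
    induction e using Sym2.ind with
    | _ u v =>
      intro h1 h2
      rw [mem_EAt] at h1 h2
      obtain ⟨⟨⟨-, -, -, h4, h5⟩, -⟩, -⟩ := h2
      rcases h1.2 with h6 | h6
      · rcases F.real_ST h4 with h7 | h7
        · exact h6.1 h7
        · have := h6.2.1; omega
      · rcases F.real_ST h5 with h7 | h7
        · exact h6.1 h7
        · have := h6.2.1; omega
  unfold fO
  unfold fden rho at hM0 ⊢
  rw [hE, Set.ncard_union_eq hEd (Set.toFinite _) (Set.toFinite _), hcl,
    Set.ncard_union_eq hdisj (Set.toFinite _) (Set.toFinite _)]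
  push_cast
  linarith

end Pool.Agent.Helper94.F2
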