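import Pool.Agent.Helper94.F2.StubC

/-!
# Connectivity of the society
-/

set_option autoImplicit false

namespace Pool.Agent.Helper94.F2

open SimpleGraph Pool.Agent.Helper57.TOK Pool.Agent.Helper57.TD Pool.Agent.Helper57.TOP
  Pool.Agent.Helper82.TK Pool.Agent.Helper41.F2 Pool.Agent.Helper1.GL

variable {V : Type*} {G : SimpleGraph V} {U Y : Set V} {κ : V → ZMod 2} {h p q n1 n2 n3 : V}

lemma Hand.deg [Finite V] {m u v : V} (hm : Hand G m u v) : (G.neighborSet m).ncard = 2 := by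
  rw [hm.nb, Set.ncard_pair hm.ne]

/-- the vertices of the society in `Y` have degree at least three -/
lemma Sq.realY [Finite V] (F : Sq G U Y κ h p q n1 n2 n3) {v : V}
    (hv : v ∈ SS G Y p n3 ∪ TT h p n1 n2) (hvY : v ∈ Y) : 3 ≤ (G.neighborSet v).ncard := by
  rcases F.real_ST hv with h1 | h1
  · exact absurd (h1 ▸ hvY) F.hY
  · exact h1

lemma Sq.khadj [Finite V] (F : Sq G U Y κ h p q n1 n2 n3) {u v : V} (hu : u ∈ Y)
    (hup : u = p → v ≠ h) (huv : G.Adj u v) : kh κ h p u ≠ kh κ h p v := by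
  have huh : u ≠ h := fun hh => F.hY (hh ▸ hu)
  by_cases hv : v = h
  · subst hv
    have h1 : u = q := by
      rcases F.hand.adj.1 huv.symm with h2 | h2
      · exact absurd rfl (hup h2)
      · exact h2
    rw [kh_h, kh_ne κ v p huh, h1]
    exact F.pq.symm
  · rw [kh_ne κ h p huh, kh_ne κ h p hv]
    exact F.bal u hu v hv huv

/-- An edge of the society: an odd one is an edge of `G`, an even one a vertex of degree two. -/
theorem Sq.zcases [Finite V] (F : Sq G U Y κ h p q n1 n2 n3) {u v : V}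
    (huv : (ZG G Y h p n1 n2 n3).Adj u v) :
    (G.Adj u v ∧ kh κ h p u ≠ kh κ h p v) ∨
      (¬ G.Adj u v ∧ kh κ h p u = kh κ h p v ∧ ∃ m ∈ Y, Hand G m u v) := by
  have key : ∀ u v, (ZG G Y h p n1 n2 n3).Adj u v → u ∈ Y →
      (G.Adj u v ∧ kh κ h p u ≠ kh κ h p v) ∨
      (¬ G.Adj u v ∧ kh κ h p u = kh κ h p v ∧ ∃ m ∈ Y, Hand G m u v) := by
    rintro u v ⟨h1, -, h3, h4, h5⟩ hu
    have hpS : p ∉ SS G Y p n3 := by
      rintro (h6 | h6)
      · exact F.n3Y (h6 ▸ F.pY)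
      · exact h6.2.1 rfl
    have hhS : h ∉ SS G Y p n3 := by
      rintro (h6 | h6)
      · exact F.hn3 h6
      · exact F.hY h6.1
    have hpv : u = p → v ≠ h := by
      rintro rfl rfl
      rcases h3 with h6 | h6
      · exact hpS h6
      · exact hhS h6
    by_cases hadj : G.Adj u v
    · exact Or.inl ⟨hadj, F.khadj hu hpv hadj⟩
    · right
      obtain ⟨m, hm, hh⟩ := h1.resolve_left hadj
      have hmY : m ∈ Y := F.handY hu hh.hp.symm hm (Hand.deg hh)
      have e1 := F.khadj hmY (fun hh' => by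
        exfalso
        have := F.preal
        rw [← hh', Hand.deg hh] at this
        omega) hh.hp
      have hvh : v ≠ h := by
        rintro rfl
        have e2 := gmin_hand_real F.hM (F.YU hmY) hh.symm
        rw [F.hdeg] at e2
        omega
      have e2 := F.khadj hmY (fun _ => hvh) hh.hq
      refine ⟨hadj, ?_, m, hmY, hh⟩
      exact eq_of_ne_of_ne e1.symm e2.symm
  rcases huv.2.1 with h1 | h1
  · exact key u v huv h1
  · rcases key v u huv.symm h1 with ⟨h2, h3⟩ | ⟨h2, h3, m, hm, h4⟩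
    · exact Or.inl ⟨h2.symm, h3.symm⟩
    · exact Or.inr ⟨fun hh => h2 hh.symm, h3.symm, m, hm, h4.symm⟩

/-- In a vertex of degree two the other neighbour. -/
lemma exists_hand_of_adj [Finite V] {m u : V} (h2 : (G.neighborSet m).ncard = 2)
    (hu : G.Adj m u) : ∃ v, Hand G m u v := by
  obtain ⟨a, b, hab, hN⟩ := Set.ncard_eq_two.1 h2
  have hm : u ∈ ({a, b} : Set V) := by rw [← hN]; exact hu
  rcases hm with h1 | h1
  · exact ⟨b, h1 ▸ hab, by rw [hN, h1]⟩
  · rw [Set.mem_singleton_iff] at h1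
    exact ⟨a, h1 ▸ hab.symm, by rw [hN, h1, Set.pair_comm]⟩

lemma Sq.real_or [Finite V] (F : Sq G U Y κ h p q n1 n2 n3) {y : V} (hy : y ∈ U) :
    (G.neighborSet y).ncard = 2 ∨ 3 ≤ (G.neighborSet y).ncard := by
  have := F.hM.ex.deg2 y hy
  omega

/-- A neighbour of `n3` in `Y` gives a neighbour in the society. -/
lemma Sq.n3_img [Finite V] (F : Sq G U Y κ h p q n1 n2 n3) {y : V} (hy : y ∈ Y)
    (hadj : G.Adj n3 y) : ∃ y', (ZG G Y h p n1 n2 n3).Adj n3 y' ∧
      ((y' = y ∧ 3 ≤ (G.neighborSet y).ncard) ∨ Hand G y n3 y') := by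
  rcases F.real_or (F.YU hy) with h2 | h2
  · obtain ⟨y', hh⟩ := exists_hand_of_adj h2 hadj.symm
    have hyh : y ≠ h := fun hh' => F.hY (hh' ▸ hy)
    have hr : 3 ≤ (G.neighborSet y').ncard := gmin_hand_real F.hM (F.YU hy) hh.symm
    have hy'Y : y' ∈ Y := by
      rcases F.nb y hy y' hh.hq with h1 | h1 | h1 | h1 | h1
      · exact h1
      · exfalso
        rw [h1, F.hdeg] at hr
        omega
      all_goals
        exfalso
        refine F.nolink y hy h2 ?_
        rw [hh.nb]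
        rintro x (rfl | hx)
        · simp
        · rw [Set.mem_singleton_iff] at hx
          rw [hx, h1]; simp
    exact ⟨y', ⟨Or.inr ⟨y, hyh, hh⟩, Or.inr hy'Y, Or.inl (Or.inl rfl), Or.inl (Or.inl rfl),
      F.mem_ST hy'Y hr⟩, Or.inr hh⟩
  · exact ⟨y, ⟨Or.inl hadj, Or.inr hy, Or.inl (Or.inl rfl), Or.inl (Or.inl rfl),
      F.mem_ST hy h2⟩, Or.inl ⟨rfl, h2⟩⟩

/-- `n3` has two neighbours in the society (`two3` and `nolink`; different neighbours in `Y` give
different neighbours in the society). -/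
theorem Sq.n3_two [Finite V] (F : Sq G U Y κ h p q n1 n2 n3) :
    2 ≤ ((ZG G Y h p n1 n2 n3).neighborSet n3).ncard := by
  obtain ⟨y1, h1, y2, h2, hne⟩ := (Set.one_lt_ncard (Set.toFinite _)).1 F.two3
  obtain ⟨z1, g1, g1'⟩ := F.n3_img h1.2 h1.1
  obtain ⟨z2, g2, g2'⟩ := F.n3_img h2.2 h2.1
  refine two_le_ncard_of (a := z1) (b := z2) g1 g2 ?_
  have key : ∀ y z, y ∈ Y → G.Adj n3 y → z ∈ Y → G.Adj n3 z → Hand G z n3 y → False := by
    intro y z hy hy' hz hz' hh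
    have e1 := F.bal y hy n3 F.hn3.symm hy'.symm
    have e2 := F.bal z hz n3 F.hn3.symm hz'.symm
    have e3 := F.bal z hz y (fun hh' => F.hY (hh' ▸ hy)) hh.hq
    exact e3 (eq_of_ne_of_ne e2 e1)
  rintro rfl
  rcases g1' with ⟨a1, a2⟩ | a1 <;> rcases g2' with ⟨b1, b2⟩ | b1
  · exact hne (a1.symm.trans b1)
  · subst a1
    exact key z1 y2 h1.2 h1.1 h2.2 h2.1 b1
  · subst b1
    exact key z1 y1 h2.2 h2.1 h1.2 h1.1 a1
  · exact hne (gmin_hand_unique F.hM (F.YU h1.2) a1 (F.YU h2.2) b1)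

/-- No triangle in the society (by `F.ht`), at `n3`. -/
theorem Sq.no_tri [Finite V] (F : Sq G U Y κ h p q n1 n2 n3) {a x : V}
    (h1 : (ZG G Y h p n1 n2 n3).Adj n3 a) (h2 : (ZG G Y h p n1 n2 n3).Adj n3 x)
    (h3 : (ZG G Y h p n1 n2 n3).Adj a x) : False := by
  have n3a : n3 ≠ a := h1.ne
  have n3x : n3 ≠ x := h2.ne
  have hax : a ≠ x := h3.ne
  -- a hand in `Y` is not in `S ∪ T`
  have hne : ∀ m ∈ Y, ∀ u v, Hand G m u v → ∀ w, w ∈ SS G Y p n3 ∪ TT h p n1 n2 → w ≠ m := by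
    rintro m hm u v hh w hw rfl
    have e1 := F.realY hw hm
    rw [Hand.deg hh] at e1
    omega
  have w3 : n3 ∈ SS G Y p n3 ∪ TT h p n1 n2 := h1.2.2.2.1
  have wa : a ∈ SS G Y p n3 ∪ TT h p n1 n2 := h1.2.2.2.2
  have wx : x ∈ SS G Y p n3 ∪ TT h p n1 n2 := h2.2.2.2.2
  rcases F.zcases h1 with ⟨a1, b1⟩ | ⟨a1, b1, m1, c1, d1⟩ <;>
    rcases F.zcases h2 with ⟨a2, b2⟩ | ⟨a2, b2, m2, c2, d2⟩ <;>
    rcases F.zcases h3 with ⟨a3, b3⟩ | ⟨a3, b3, m3, c3, d3⟩
  · exact b3 (eq_of_ne_of_ne b1.symm b2.symm)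
  · exact (F.ht m3 a x n3 d3 (hne m3 c3 _ _ d3 _ w3) n3a n3x).1 ⟨a1.symm, a2.symm⟩
  · exact (F.ht m2 n3 x a d2 (hne m2 c2 _ _ d2 _ wa) n3a.symm hax).1 ⟨a1, a3.symm⟩
  · exact b1 (b2.trans b3.symm)
  · exact (F.ht m1 n3 a x d1 (hne m1 c1 _ _ d1 _ wx) n3x.symm hax.symm).1 ⟨a2, a3⟩
  · exact b2 (b1.trans b3)
  · exact b3 (b1.symm.trans b2)
  · exact (F.ht m1 n3 a x d1 (hne m1 c1 _ _ d1 _ wx) n3x.symm hax.symm).2 ⟨m2, m3, d2, d3⟩

/-- Sets without `n3` have three neighbours (`Sq.cl_Nb`, `gmin_three_le`; a single vertex has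
degree at least three). -/
theorem Sq.three_le [Finite V] (F : Sq G U Y κ h p q n1 n2 n3) {A : Set V}
    (hA : A ⊆ SS G Y p n3) (h3 : n3 ∉ A) (hne : A.Nonempty) :
    3 ≤ (Nb (ZG G Y h p n1 n2 n3) A).ncard := by
  rw [← F.cl_Nb hA h3]
  have hcU : cl G h A ⊆ U := (F.cl_sub hA h3).trans F.YU
  by_cases h2 : 2 ≤ (cl G h A).ncard
  · exact gmin_three_le F.hM hcU (F.cl_pb hA h3) h2
  · obtain ⟨a, ha⟩ := hne
    have haC : a ∈ cl G h A := Or.inl ha
    have hpos := (Set.ncard_pos (Set.toFinite _)).2 ⟨a, haC⟩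
    obtain ⟨b, hb⟩ := Set.ncard_eq_one.1 (by omega : (cl G h A).ncard = 1)
    rw [hb] at haC
    rw [Set.mem_singleton_iff] at haC
    subst haC
    rw [hb, Nb_singleton]
    rcases hA ha with h4 | h4
    · exact absurd (h4 ▸ ha) h3
    · exact h4.2.2

/-- Splitting off `n3`. -/
lemma Sq.Nb_split (_ : Sq G U Y κ h p q n1 n2 n3) {A : Set V} :
    Nb (ZG G Y h p n1 n2 n3) A ⊆ insert n3 (Nb (ZG G Y h p n1 n2 n3) (insert n3 A)) := by
  rintro v ⟨h1, u, hu, huv⟩
  by_cases hv : v = n3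
  · exact Or.inl hv
  · refine Or.inr ⟨?_, u, Or.inr hu, huv⟩
    rintro (h2 | h2)
    · exact hv h2
    · exact h1 h2

/-- Condition C2. (If `n3 ∈ D`, `A = D \ {n3}` is one vertex `a` by `gmin_real_le_one`, and its
neighbours are `n3` and the two neighbours of `D`: triangle with a neighbour of `n3`.) -/
theorem Sq.C2 [Finite V] (F : Sq G U Y κ h p q n1 n2 n3) {D : Set V}
    (hD : D ⊆ SS G Y p n3) (h2 : 2 ≤ D.ncard) :
    3 ≤ (Nb (ZG G Y h p n1 n2 n3) D).ncard := by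
  by_contra hlt
  push Not at hlt
  by_cases h3 : n3 ∈ D
  · set A : Set V := D \ {n3} with hA
    have hDA : D = insert n3 A := by
      rw [hA, Set.insert_sdiff_singleton, Set.insert_eq_of_mem h3]
    have hAS : A ⊆ SS G Y p n3 := Set.sdiff_subset.trans hD
    have h3A : n3 ∉ A := fun hh => hh.2 rfl
    have hAc : A.ncard + 1 = D.ncard := Set.ncard_sdiff_singleton_add_one h3 (Set.toFinite _)
    have hAne : A.Nonempty := by
      rw [← Set.ncard_pos (Set.toFinite _)]; omega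
    have hs := F.Nb_split (A := A)
    rw [← hDA] at hs
    have hc1 : (Nb (ZG G Y h p n1 n2 n3) A).ncard ≤ 3 := by
      have e1 := Set.ncard_le_ncard hs (Set.toFinite _)
      have e2 := Set.ncard_insert_le n3 (Nb (ZG G Y h p n1 n2 n3) D)
      omega
    have hc2 := F.three_le hAS h3A hAne
    have hcU : cl G h A ⊆ U := (F.cl_sub hAS h3A).trans F.YU
    have hone := gmin_real_le_one F.hM hcU (F.cl_pb hAS h3A) (by rw [F.cl_Nb hAS h3A]; exact hc1)
    obtain ⟨a, ha⟩ := hAne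
    have haA : ∀ b ∈ A, b = a := by
      have hr : ∀ b ∈ A, b ∈ {y | y ∈ cl G h A ∧ 3 ≤ (G.neighborSet y).ncard} := by
        intro b hb
        refine ⟨Or.inl hb, ?_⟩
        rcases hAS hb with h4 | h4
        · exact absurd (h4 ▸ hb) h3A
        · exact h4.2.2
      intro b hb
      exact eq_of_ncard_le_one hone (hr b hb) (hr a ha)
    have heq : Nb (ZG G Y h p n1 n2 n3) A = insert n3 (Nb (ZG G Y h p n1 n2 n3) D) := by
      apply Set.eq_of_subset_of_ncard_le hs _ (Set.toFinite _)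
      have e2 := Set.ncard_insert_le n3 (Nb (ZG G Y h p n1 n2 n3) D)
      omega
    have hadj : ∀ v ∈ Nb (ZG G Y h p n1 n2 n3) A, (ZG G Y h p n1 n2 n3).Adj a v := by
      rintro v ⟨-, u, hu, huv⟩
      rw [haA u hu] at huv
      exact huv
    have h3N : (ZG G Y h p n1 n2 n3).Adj a n3 := hadj n3 (by rw [heq]; exact Or.inl rfl)
    obtain ⟨x, hx, hxa⟩ := exists_ne_of_two F.n3_two a
    have hx' : (ZG G Y h p n1 n2 n3).Adj n3 x := hx
    have hxD : x ∈ Nb (ZG G Y h p n1 n2 n3) D := by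
      refine ⟨?_, n3, h3, hx'⟩
      rw [hDA]
      rintro (h4 | h4)
      · exact hx'.ne h4.symm
      · exact hxa (haA x h4)
    exact F.no_tri h3N.symm hx' (hadj x (by rw [heq]; exact Or.inr hxD))
  · have := F.three_le hD h3 (by
      rw [← Set.ncard_pos (Set.toFinite _)]; omega)
    omega

/-- Condition C1. -/
theorem Sq.C1 [Finite V] (F : Sq G U Y κ h p q n1 n2 n3) {s : V}
    (hs : s ∈ SS G Y p n3) : 2 ≤ ((ZG G Y h p n1 n2 n3).neighborSet s).ncard := by
  by_cases h3 : s = n3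
  · rw [h3]; exact F.n3_two
  · have := F.three_le (A := {s}) (by
      rintro x hx
      rw [Set.mem_singleton_iff] at hx
      rw [hx]; exact hs) (fun hh => h3 (Set.mem_singleton_iff.1 hh).symm) ⟨s, rfl⟩
    rw [Nb_singleton] at this
    omega

end Pool.Agent.Helper94.F2
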