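import Pool.Agent.Helper97.PH.PF

/-!
# StubPF: Lemma P2+ with inconsistent edges between `l` and `T`

As `Pool.Agent.Helper97.PH.PP`, without `ball`: the edges between `l` and `T` may be inconsistent
(`fO` counts only the consistent ones). Put the inconsistent edges `l t` into the outer graph `mG`.
`l` has two neighbours in `T` with consistent edges (so no degenerate case).
-/

set_option autoImplicit false

namespace Pool.Agent.Helper94.F2

open SimpleGraph Pool.Agent.Helper57.TOK Pool.Agent.Helper57.TD Pool.Agent.Helper82.TK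
  Pool.Agent.Helper1.TD Pool.Agent.Helper1.GL Pool.Agent.Helper57.TOP Pool.Agent.Helper97.PH

variable {V : Type*}

structure PF (G : SimpleGraph V) (U Y : Set V) (l : V) (T : Set V) (κ : V → ZMod 2) : Prop where
  w3 : W3 G (One V) U
  YU : Y ⊆ U
  lU : l ∈ U
  TU : T ⊆ U
  T3 : T.ncard = 3
  lY : l ∉ Y
  lT : l ∉ T
  YT : ∀ t ∈ T, t ∉ Y
  nb : ∀ u ∈ Y, ∀ v, G.Adj u v → v ∈ Y ∨ v = l ∨ v ∈ T
  bal : BalOn G (One V) Y κ
  two : ∃ b ∈ T, ∃ b' ∈ T, b ≠ b' ∧ G.Adj l b ∧ G.Adj l b' ∧ κ l + κ b = 1 ∧ κ l + κ b' = 1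
  sparse : ∀ Y' ⊆ Y, 2 ≤ Y'.ncard → (Nb G Y').ncard = 3 → 2 ≤ (U \ (Y' ∪ Nb G Y')).ncard →
    fden (odG G (One V)) Y' ≤ beta κ (Nb G Y')
  dens : beta κ T + 1 ≤ fO (lG G Y l T) κ (insert l Y)

variable {G : SimpleGraph V} {U Y T : Set V} {l : V} {κ : V → ZMod 2}

theorem PF.main [Finite V] (h : PF G U Y l T κ) :
    HasTOK4s G (One V) ∨
    (∃ Y' κ', Y ⊆ Y' ∧ (∃ t ∈ insert l T, t ∈ Y') ∧ Y' ⊆ U ∧ BalOn G (One V) Y' κ' ∧
      (Nb G Y').ncard ≤ 3) ∨
    (∃ t0 b2 b3, T = {t0, b2, b3} ∧ t0 ≠ b2 ∧ t0 ≠ b3 ∧ b2 ≠ b3 ∧ G.Adj l t0 ∧ κ l = κ t0 ∧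
      ∃ Q : G.Walk b2 b3, Q.IsPath ∧ wt (One V) Q = κ b2 + κ b3 + 1 ∧
        ∀ x ∈ Q.support, x ∉ Y ∧ x ≠ l ∧ x ≠ t0) := by
  set F : Set V := {t | t ∈ T ∧ κ l + κ t = 1} with hF
  have hfO : fO (lG G Y l F) κ (insert l Y) = fO (lG G Y l T) κ (insert l Y) := by
    apply fO_congr
    intro u v _
    rw [lG_adj, lG_adj]
    constructor
    · rintro ⟨⟨h1, h2⟩, h3⟩
      refine ⟨⟨h1, ?_⟩, h3⟩
      rcases h2 with h2 | h2 | h2 | h2
      · exact Or.inl h2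
      · exact Or.inr (Or.inl h2)
      · exact Or.inr (Or.inr (Or.inl ⟨h2.1, h2.2.1⟩))
      · exact Or.inr (Or.inr (Or.inr ⟨h2.1, h2.2.1⟩))
    · rintro ⟨⟨h1, h2⟩, h3⟩
      refine ⟨⟨h1, ?_⟩, h3⟩
      rcases h2 with h2 | h2 | h2 | h2
      · exact Or.inl h2
      · exact Or.inr (Or.inl h2)
      · exact Or.inr (Or.inr (Or.inl ⟨h2.1, h2.2, by rw [← h2.1]; exact h3⟩))
      · exact Or.inr (Or.inr (Or.inr ⟨h2.1, h2.2, by rw [← h2.1, add_comm]; exact h3⟩))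
  have hP : Pool.Agent.Helper97.PH.PF G U Y l T F κ :=
    { w3 := h.w3, YU := h.YU, lU := h.lU, TU := h.TU, T3 := h.T3, lY := h.lY, lT := h.lT,
      YT := h.YT, FT := fun t ht => ht.1, nb := h.nb, bal := h.bal,
      ball := fun t ht _ => ht.2
      two := by
        obtain ⟨b, hb, b', hb', hne, h1, h2, h3, h4⟩ := h.two
        exact ⟨b, b', hne, ⟨hb, h3⟩, ⟨hb', h4⟩, h1, h2⟩
      sparse := h.sparse
      dens := by rw [hfO]; exact h.dens }
  rcases hP.main with h1 | ⟨Y', κ', h1, h2, h3, -, h4, h5⟩ | ⟨t0, b2, b3, h1, h2, h3, h4, h5⟩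
  · exact Or.inl h1
  · exact Or.inr (Or.inl ⟨Y', κ', h1, h2, h3, h4, h5⟩)
  · refine Or.inr (Or.inr ⟨t0, b2, b3, h1, ?_, ?_, ?_, h3, h4, h5⟩)
    · rintro rfl
      have h6 := h.T3
      have h7 : T ⊆ {t0, b3} := by
        rw [h1]
        rintro x (h8 | h8 | h8)
        · exact Or.inl h8
        · exact Or.inl h8
        · exact Or.inr h8
      have h8 := Set.ncard_le_ncard h7 (Set.toFinite _)
      have := ncard_pair_le' t0 b3
      omega
    · rintro rfl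
      have h6 := h.T3
      have h7 : T ⊆ {t0, b2} := by
        rw [h1]
        rintro x (h8 | h8 | h8)
        · exact Or.inl h8
        · exact Or.inr h8
        · exact Or.inl h8
      have h8 := Set.ncard_le_ncard h7 (Set.toFinite _)
      have := ncard_pair_le' t0 b2
      omega
    · rintro rfl
      have h6 := h.T3
      rw [h1, Set.pair_eq_singleton] at h6
      have := ncard_pair_le' t0 b2
      omega

end Pool.Agent.Helper94.F2
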