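import Pool.Agent.Helper94.F2.StubE
import Pool.Agent.Helper94.F2.StubPF
import Pool.Agent.Helper41.F2.Fan4
import Pool.Agent.Helper41.F2.Close

/-!
# The last exit of `PF.main` gives a TOK4
-/

set_option autoImplicit false

namespace Pool.Agent.Helper94.F2

open SimpleGraph Pool.Agent.Helper57.TOK Pool.Agent.Helper57.TD Pool.Agent.Helper57.TOP
  Pool.Agent.Helper82.TK Pool.Agent.Helper41.F2

variable {V : Type*} {G : SimpleGraph V} {U Y : Set V} {κ : V → ZMod 2} {h p q n1 n2 n3 : V}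

/-- The last exit of `PF.main` (helper41: FAN4 + FanClose). -/
theorem fan_exit [Finite V] (hM : GMin G U) {A : Set V} {l t0 b2 b3 : V} (hA : A ⊆ U)
    (hb : PB G κ A) (hN : Nb G A = {l, t0, b2, b3}) (hlt : l ≠ t0) (hl2 : l ≠ b2) (hl3 : l ≠ b3)
    (ht2 : t0 ≠ b2) (ht3 : t0 ≠ b3) (h23 : b2 ≠ b3) (hk0 : κ l = κ t0) (hk2 : κ l ≠ κ b2)
    (hk3 : κ l ≠ κ b3) (hf : 1 ≤ fden G A) (a0 : G.Adj l t0) (a2 : G.Adj l b2) (a3 : G.Adj l b3)
    (Q : G.Walk b2 b3) (hQ : Q.IsPath) (hQw : wt (One V) Q = κ b2 + κ b3 + 1)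
    (hQs : ∀ x ∈ Q.support, x ∉ A ∧ x ≠ l ∧ x ≠ t0) : False := by
  obtain ⟨y, hy, -, P1, P2, P3, p1, p2, p3, s1, s2, s3, d12, d13, d23⟩ :=
    fan4 hM hA hb hN hlt hl2 hl3 ht2 ht3 h23 hk0.symm hk2.symm hk3.symm hf
  have mem : ∀ x ∈ ({l, t0, b2, b3} : Set V), x ∉ A := by
    intro x hx
    rw [← hN] at hx
    exact hx.1
  have nl : l ∉ A := mem l (by simp)
  have n2 : b2 ∉ A := mem b2 (by simp)
  have n3' : b3 ∉ A := mem b3 (by simp)
  have hl1 : l ∉ P1.support := by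
    intro hx
    rcases s1 l hx with h1 | h1
    · exact nl h1
    · exact hlt h1
  have hsup : ∀ x, x ∈ (P1.concat a0.symm).support → x ∈ P1.support ∨ x = l := by
    intro x hx
    rw [Walk.support_concat, List.mem_append] at hx
    rcases hx with h1 | h1
    · exact Or.inl h1
    · exact Or.inr (by simpa using h1)
  have hk : κ b2 = κ b3 := eq_of_ne_of_ne hk2.symm hk3.symm
  apply hM.bad
  refine tok_of_centre (ctr := l) (y := y) a2 rfl a3 rfl Q (P1.concat a0.symm) P2 P3 ⟨hQ, ?_⟩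
    ⟨?_, ?_⟩ p2 p3 h23 (fun hh => nl (hh ▸ hy)) (fun hh => n2 (hh ▸ hy)) (fun hh => n3' (hh ▸ hy))
    ?_ ?_ d23 ?_ ?_ ?_
  · rw [hQw, hk, CharTwo.add_self_eq_zero, zero_add]
  · exact p1.1.concat hl1 a0.symm
  · rw [Walk.concat_eq_append, wt_append, p1.2, wt_cons, wt_nil]
    rfl
  · intro x hx hx2
    rcases hsup x hx with h1 | h1
    · exact d12 x h1 hx2
    · exfalso
      rcases s2 x hx2 with h3 | h3
      · exact nl (h1 ▸ h3)
      · exact hl2 (h1.symm.trans h3)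
  · intro x hx hx2
    rcases hsup x hx with h1 | h1
    · exact d13 x h1 hx2
    · exfalso
      rcases s3 x hx2 with h3 | h3
      · exact nl (h1 ▸ h3)
      · exact hl3 (h1.symm.trans h3)
  · intro x hx hx2
    obtain ⟨g1, g2, g3⟩ := hQs x hx
    rcases hsup x hx2 with h1 | h1
    · rcases s1 x h1 with h3 | h3
      · exact g1 h3
      · exact g3 h3
    · exact g2 h1
  · intro x hx hx2
    obtain ⟨g1, g2, g3⟩ := hQs x hx
    rcases s2 x hx2 with h3 | h3
    · exact absurd h3 g1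
    · exact h3
  · intro x hx hx2
    obtain ⟨g1, g2, g3⟩ := hQs x hx
    rcases s3 x hx2 with h3 | h3
    · exact absurd h3 g1
    · exact h3

end Pool.Agent.Helper94.F2
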